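import Pool.Agent.Helper824_mb.Hei3

/-!
An Ahlfors-Schwarz lemma with a finite Blaschke product as the comparison.
-/

namespace Pool.Agent.H824MB

open Topology Filter Set Complex Polynomial Metric

variable {m : ℕ}

lemma V_large {p : Fin (m + 1) → ℂ} (hp : Good p) (hT : Pos p) (K : ℝ) :
    ∃ r < 1, ∀ z, r ≤ ‖z‖ → ‖z‖ < 1 → K ≤ 2 * (1 - ‖BB p z‖ ^ 2)⁻¹ - 1 := by
  obtain ⟨C2, hC2, hE⟩ := EE_bound p
  obtain ⟨σ, hσ, hS⟩ := SS_lower hp
  set K' := |K| + 1 with hK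
  have hK'pos : 0 < K' := by positivity
  set t := 2 * σ / ((C2 + 1) * K') with ht
  have htpos : 0 < t := by positivity
  refine ⟨max (1 / 2) (1 - t), max_lt (by norm_num) (by linarith), fun v hv hv1 => ?_⟩
  have hvr : 1 / 2 ≤ ‖v‖ := (le_max_left _ _).trans hv
  have hvt : 1 - t ≤ ‖v‖ := (le_max_right _ _).trans hv
  have hv0 : v ≠ 0 := by
    rintro rfl
    rw [norm_zero] at hvr
    linarith
  have hd : 0 < 1 - ‖v‖ := by linarith
  have hSv := hp v hv1.le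
  have hEpos := EE_pos hp hT hv1
  rw [one_sub_BB hSv, inv_div]
  have h1 := hS v hv1.le
  have h2 := hE v hv0 hv1.le
  have h3 : σ / ((C2 + 1) * (1 - ‖v‖)) ≤ ‖(SS p).eval v‖ ^ 2 / EE p v := by
    rw [div_le_div_iff₀ (by positivity) hEpos]
    nlinarith
  have h4 : K' ≤ 2 * (σ / ((C2 + 1) * (1 - ‖v‖))) := by
    have h5 : 1 - ‖v‖ ≤ t := by linarith
    rw [ht, le_div_iff₀ (by positivity)] at h5
    rw [← mul_div_assoc, le_div_iff₀ (by positivity)]
    linarith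
  have h6 := le_abs_self K
  linarith

lemma ratio_bound {p : Fin (m + 1) → ℂ} (hp : Good p) (hT : Pos p) :
    ∃ M ≥ 0, ∃ r < 1, ∀ z, r ≤ ‖z‖ → ‖z‖ < 1 → deriv (BB p) z ≠ 0 ∧
      1 - ‖BB p z‖ ^ 2 ≤ M * ((1 - ‖z‖ ^ 2) * ‖deriv (BB p) z‖) := by
  obtain ⟨C2, hC2, hE⟩ := EE_bound p
  obtain ⟨r, hr, hr0, c, hc, hW⟩ := near_circle (h := fun z => ‖(Wb p p).eval z‖)
    ((Wb p p).continuous.norm) (fun ζ hζ => by
      have h1 := congrArg norm (TT_of_Wb p hζ)
      rw [norm_mul, norm_mul, norm_pow, hζ, one_mul, one_pow, one_mul, Complex.norm_real] at h1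
      rw [h1]
      exact norm_pos_iff.mpr (hT ζ hζ).ne')
  refine ⟨C2 / c, by positivity, r, hr, fun z hz hz1 => ?_⟩
  have hz0 : z ≠ 0 := by
    rintro rfl
    rw [norm_zero] at hz
    linarith
  have hS := hp z hz1.le
  have hSn : 0 < ‖(SS p).eval z‖ ^ 2 := by positivity
  have hWz : c ≤ ‖(Wb p p).eval z‖ := hW z hz hz1.le
  have hEz := hE z hz0 hz1.le
  constructor
  · rw [BB_deriv p hS]
    apply div_ne_zero _ (pow_ne_zero 2 hS)
    rw [← norm_pos_iff]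
    linarith
  · rw [one_sub_BB hS, BB_deriv p hS, norm_div, norm_pow]
    have h1 : EE p z ≤ C2 / c * ((1 - ‖z‖ ^ 2) * ‖(Wb p p).eval z‖) := by
      have h2 : 1 - ‖z‖ ≤ 1 - ‖z‖ ^ 2 := by
        have := norm_nonneg z
        nlinarith
      have h3 : C2 * (1 - ‖z‖) ≤ C2 / c * ((1 - ‖z‖ ^ 2) * c) := by
        have e : C2 / c * ((1 - ‖z‖ ^ 2) * c) = C2 * (1 - ‖z‖ ^ 2) := by
          field_simp
        rw [e]
        exact mul_le_mul_of_nonneg_left h2 hC2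
      have h4 : 0 ≤ 1 - ‖z‖ ^ 2 := by linarith
      have h5 : C2 / c * ((1 - ‖z‖ ^ 2) * c) ≤ C2 / c * ((1 - ‖z‖ ^ 2) * ‖(Wb p p).eval z‖) := by
        gcongr
      linarith
    calc EE p z / ‖(SS p).eval z‖ ^ 2
        ≤ (C2 / c * ((1 - ‖z‖ ^ 2) * ‖(Wb p p).eval z‖)) / ‖(SS p).eval z‖ ^ 2 := by gcongr
      _ = _ := by ring

/-- **Ahlfors-Schwarz lemma.** -/
theorem AS {p : Fin (m + 1) → ℂ} (hp : Good p) (hT : Pos p) {ϱ : ℂ → ℝ}
    (hc : ContinuousOn ϱ (ball 0 1))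
    (hb : ∃ r < 1, ∃ M, ∀ z, r ≤ ‖z‖ → ‖z‖ < 1 → ϱ z ≤ M)
    (hL : ∀ z, ‖z‖ < 1 → 1 < ϱ z → ∃ L, Lap (fun w => Real.log (ϱ w)) z L ∧
      4 * (‖deriv (BB p) z‖ / (1 - ‖BB p z‖ ^ 2)) ^ 2 * (ϱ z ^ 2 - 1) ≤ L) :
    ∀ z, ‖z‖ < 1 → ϱ z ≤ 1 := by
  obtain ⟨r1, hr1, M, hM⟩ := hb
  set V : ℂ → ℝ := fun w => 2 * (1 - ‖BB p w‖ ^ 2)⁻¹ - 1 with hV
  have hpos : ∀ w, ‖w‖ < 1 → 0 < 1 - ‖BB p w‖ ^ 2 := by
    intro w hw
    have := BB_lt hp hT hw
    have := norm_nonneg (BB p w)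
    nlinarith
  have hV1 : ∀ w, ‖w‖ < 1 → 1 ≤ V w := by
    intro w hw
    have h1 : 1 ≤ (1 - ‖BB p w‖ ^ 2)⁻¹ := by
      rw [one_le_inv₀ (hpos w hw)]
      have : 0 ≤ ‖BB p w‖ ^ 2 := by positivity
      linarith
    show 1 ≤ 2 * (1 - ‖BB p w‖ ^ 2)⁻¹ - 1
    linarith
  have hcB : ∀ w, ‖w‖ < 1 → ContinuousAt (BB p) w := fun w hw =>
    (qu_analyticAt _ _ (hp w hw.le)).continuousAt
  have hcinv : ∀ w, ‖w‖ < 1 → ContinuousAt (fun w => (1 - ‖BB p w‖ ^ 2)⁻¹) w := fun w hw =>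
    (continuousAt_const.sub ((hcB w hw).norm.pow 2)).inv₀ (hpos w hw).ne'
  have hcV : ContinuousOn V (ball 0 1) := by
    intro w hw
    have hw' := mem_ball_zero_iff.mp hw
    apply ContinuousAt.continuousWithinAt
    exact ((continuousAt_const.mul (hcinv w hw')).sub continuousAt_const)
  have hcl : ContinuousOn (fun w => Real.log (max (ϱ w) 1)) (ball 0 1) := by
    apply ContinuousOn.log
    · exact hc.sup continuousOn_const
    · intro w _
      have : (1 : ℝ) ≤ max (ϱ w) 1 := le_max_right _ _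
      linarith
  have hl0 : ∀ w, 0 ≤ Real.log (max (ϱ w) 1) := fun w => Real.log_nonneg (le_max_right _ _)
  have main : ∀ η > 0, ∀ w, ‖w‖ < 1 → Real.log (max (ϱ w) 1) - η * V w ≤ 0 := by
    intro η hη w hw
    refine maxp (Ω := ball 0 1) isOpen_ball (R := 1) (fun z hz => (mem_ball_zero_iff.mp hz).le)
      (fun w => Real.log (max (ϱ w) 1) - η * V w) ?_ (hcl.sub (continuousOn_const.mul hcV)) ?_ w
      (mem_ball_zero_iff.mpr hw)
    · intro v hv hpv
      have hv' := mem_ball_zero_iff.mp hv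
      have hSv := hp v hv'.le
      have hVv := hV1 v hv'
      have hϱ : 1 < ϱ v := by
        by_contra hle
        push Not at hle
        have h1 : 0 < Real.log (max (ϱ v) 1) - η * V v := hpv
        rw [max_eq_right hle, Real.log_one] at h1
        have : 0 < η * V v := by positivity
        linarith
      obtain ⟨L, hLap, hLge⟩ := hL v hv' hϱ
      have hcong : (fun w => Real.log (max (ϱ w) 1)) =ᶠ[𝓝 v] fun w => Real.log (ϱ w) := by
        have h1 : ∀ᶠ w in 𝓝 v, 1 < ϱ w :=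
          (hc.continuousAt (isOpen_ball.mem_nhds hv)).eventually_const_lt hϱ
        filter_upwards [h1] with w hw
        rw [max_eq_left hw.le]
      have l2 := (Lap.V (qu_analyticAt (PP p) (SS p) hSv) (BB_lt hp hT hv')).const_mul η
      obtain ⟨a1, a2, b1, b2, k1, k2, k3⟩ := (hLap.congr hcong).sub l2
      refine ⟨a1, a2, b1, b2, k1, k2, ?_⟩
      rw [k3]
      have h1 : Real.log (max (ϱ v) 1) = Real.log (ϱ v) := by rw [max_eq_left hϱ.le]
      have h2 : 0 < Real.log (ϱ v) - η * V v := by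
        have : 0 < Real.log (max (ϱ v) 1) - η * V v := hpv
        rwa [h1] at this
      have h3 : 2 * Real.log (ϱ v) ≤ ϱ v ^ 2 - 1 := by
        have := Real.log_le_sub_one_of_pos (show 0 < ϱ v ^ 2 by positivity)
        rw [Real.log_pow] at this
        exact_mod_cast this
      set Λ := ‖deriv (BB p) v‖ / (1 - ‖BB p v‖ ^ 2) with hΛ
      have h4 : 0 ≤ 8 * Λ ^ 2 * (Real.log (ϱ v) - η * V v) := by positivity
      have h5 : 4 * Λ ^ 2 * (2 * Real.log (ϱ v)) ≤ 4 * Λ ^ 2 * (ϱ v ^ 2 - 1) :=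
        mul_le_mul_of_nonneg_left h3 (by positivity)
      have h6 : L - η * (8 * Λ ^ 2 * V v) ≥ 0 := by linarith
      exact h6
    · intro δ hδ
      obtain ⟨r2, hr2, hV2⟩ := V_large hp hT (Real.log (max M 1) / η)
      apply compact_of_near (hcl.sub (continuousOn_const.mul hcV)) (r := max r1 r2)
        (max_lt hr1 hr2)
      intro v hv hv1
      have e1 := hM v ((le_max_left _ _).trans hv) hv1
      have e2 := hV2 v ((le_max_right _ _).trans hv) hv1
      rw [div_le_iff₀ hη] at e2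
      have e3 : Real.log (max (ϱ v) 1) ≤ Real.log (max M 1) := by
        apply Real.log_le_log
        · have : (1 : ℝ) ≤ max (ϱ v) 1 := le_max_right _ _
          linarith
        · exact max_le_max_right 1 e1
      show Real.log (max (ϱ v) 1) - η * V v < δ
      have e4 : V v * η = (2 * (1 - ‖BB p v‖ ^ 2)⁻¹ - 1) * η := rfl
      linarith
  intro z hz
  by_contra hlt
  push Not at hlt
  have h1 : 0 < Real.log (max (ϱ z) 1) := by
    rw [max_eq_left hlt.le]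
    exact Real.log_pos hlt
  have hVz := hV1 z hz
  have hη : 0 < Real.log (max (ϱ z) 1) / (2 * V z) := by positivity
  have h2 := main _ hη z hz
  have h3 : Real.log (max (ϱ z) 1) / (2 * V z) * V z = Real.log (max (ϱ z) 1) / 2 := by
    field_simp
  linarith

end Pool.Agent.H824MB
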