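import Pool.Agent.Helper824_mb.Pol

/-!
Finite Blaschke products `P / P^*`: basic estimates.
-/

namespace Pool.Agent.H824MB

open Topology Filter Set Complex Polynomial Metric

variable {m : ℕ}

def Good (p : Fin (m + 1) → ℂ) : Prop := ∀ z, ‖z‖ ≤ 1 → (SS p).eval z ≠ 0

def Pos (p : Fin (m + 1) → ℂ) : Prop := ∀ ζ, ‖ζ‖ = 1 → 0 < TT p ζ

/-- quotient of two polynomials -/
noncomputable def qu (A S : ℂ[X]) (z : ℂ) : ℂ := A.eval z / S.eval z

lemma qu_hasDerivAt (A S : ℂ[X]) {z : ℂ} (hz : S.eval z ≠ 0) :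
    HasDerivAt (qu A S) (((derivative A * S - A * derivative S).eval z) / S.eval z ^ 2) z := by
  have := (A.hasDerivAt z).div (S.hasDerivAt z) hz
  refine this.congr_deriv ?_
  simp

lemma qu_analyticAt (A S : ℂ[X]) {z : ℂ} (hz : S.eval z ≠ 0) : AnalyticAt ℂ (qu A S) z :=
  (A.differentiable.analyticAt z).div (S.differentiable.analyticAt z) hz

lemma qu_deriv (A S : ℂ[X]) {z : ℂ} (hz : S.eval z ≠ 0) :
    deriv (qu A S) z = ((derivative A * S - A * derivative S).eval z) / S.eval z ^ 2 :=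
  (qu_hasDerivAt A S hz).deriv

noncomputable def BB (p : Fin (m + 1) → ℂ) : ℂ → ℂ := qu (PP p) (SS p)

lemma BB_deriv (p : Fin (m + 1) → ℂ) {z : ℂ} (hz : (SS p).eval z ≠ 0) :
    deriv (BB p) z = (Wb p p).eval z / (SS p).eval z ^ 2 := qu_deriv _ _ hz

lemma norm_circle (p : Fin (m + 1) → ℂ) {ζ : ℂ} (hζ : ‖ζ‖ = 1) :
    ‖(SS p).eval ζ‖ = ‖(PP p).eval ζ‖ := by
  rw [SS_circle p hζ, norm_mul, norm_pow, hζ, one_pow, one_mul, RCLike.norm_conj]

lemma BB_le {p : Fin (m + 1) → ℂ} (hp : Good p) {z : ℂ} (hz : ‖z‖ ≤ 1) : ‖BB p z‖ ≤ 1 := by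
  have hd : DiffContOnCl ℂ (BB p) (ball 0 1) := by
    apply DifferentiableOn.diffContOnCl
    intro w hw
    rw [closure_ball (0 : ℂ) one_ne_zero, mem_closedBall_zero_iff] at hw
    exact (qu_analyticAt _ _ (hp w hw)).differentiableAt.differentiableWithinAt
  apply Complex.norm_le_of_forall_mem_frontier_norm_le isBounded_ball hd
  · intro w hw
    rw [frontier_ball (0 : ℂ) one_ne_zero, mem_sphere_zero_iff_norm] at hw
    rw [BB, qu, norm_div, norm_circle p hw, div_self]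
    rw [← norm_circle p hw, norm_ne_zero_iff]
    exact hp w hw.le
  · rw [closure_ball (0 : ℂ) one_ne_zero, mem_closedBall_zero_iff]
    exact hz

lemma poly_zero_of_ball {A : ℂ[X]} {z0 : ℂ} {r : ℝ} (hr : 0 < r)
    (h : ∀ z ∈ ball z0 r, A.eval z = 0) : A = 0 := by
  apply Polynomial.eq_zero_of_infinite_isRoot
  have : (ball z0 r).Infinite := infinite_of_mem_nhds z0 (ball_mem_nhds z0 hr)
  exact this.mono fun z hz => h z hz

lemma Wb_ne {p : Fin (m + 1) → ℂ} (hT : Pos p) : Wb p p ≠ 0 := by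
  intro h
  have h1 : Zb p p = 0 := by rw [← X_mul_Wb, h, mul_zero]
  have h2 := Zb_circle p p (ζ := 1) (by simp)
  rw [h1, Tb_self] at h2
  have h3 := hT 1 (by simp)
  simp at h2
  have h4 : TT p 1 = 0 := by exact_mod_cast h2.symm
  rw [h4] at h3
  exact lt_irrefl _ h3

lemma BB_lt {p : Fin (m + 1) → ℂ} (hp : Good p) (hT : Pos p) {z : ℂ} (hz : ‖z‖ < 1) :
    ‖BB p z‖ < 1 := by
  refine lt_of_le_of_ne (BB_le hp hz.le) fun heq => Wb_ne hT ?_
  have hd : DifferentiableOn ℂ (BB p) (ball 0 1) := fun w hw =>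
    (qu_analyticAt _ _ (hp w (mem_ball_zero_iff.mp hw).le)).differentiableAt.differentiableWithinAt
  have hmax : IsMaxOn (norm ∘ BB p) (ball 0 1) z := by
    intro w hw
    simp only [mem_setOf_eq, Function.comp_apply, heq]
    exact BB_le hp (mem_ball_zero_iff.mp hw).le
  have hconst := Complex.eqOn_of_isPreconnected_of_isMaxOn_norm
    (convex_ball (0 : ℂ) 1).isPreconnected isOpen_ball hd (mem_ball_zero_iff.mpr hz) hmax
  apply poly_zero_of_ball (z0 := 0) (r := 1) one_pos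
  intro w hw
  have hw' := hp w (mem_ball_zero_iff.mp hw).le
  have h1 : deriv (BB p) w = 0 := by
    have : BB p =ᶠ[𝓝 w] fun _ => BB p z := by
      filter_upwards [isOpen_ball.mem_nhds hw] with v hv
      exact hconst hv
    rw [this.deriv_eq]
    simp
  rw [BB_deriv p hw'] at h1
  rcases div_eq_zero_iff.mp h1 with h2 | h2
  · exact h2
  · exact absurd h2 (pow_ne_zero 2 hw')

/-- `|S|^2 - |P|^2` -/
noncomputable def EE (p : Fin (m + 1) → ℂ) (z : ℂ) : ℝ :=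
  ‖(SS p).eval z‖ ^ 2 - ‖(PP p).eval z‖ ^ 2

noncomputable def NN (p q : Fin (m + 1) → ℂ) (z : ℂ) : ℝ :=
  (starRingEnd ℂ ((PP p).eval z) * (PP q).eval z).re - (starRingEnd ℂ ((SS p).eval z) * (SS q).eval z).re

lemma one_sub_BB {p : Fin (m + 1) → ℂ} {z : ℂ} (hz : (SS p).eval z ≠ 0) :
    1 - ‖BB p z‖ ^ 2 = EE p z / ‖(SS p).eval z‖ ^ 2 := by
  have : ‖(SS p).eval z‖ ≠ 0 := norm_ne_zero_iff.mpr hz
  rw [BB, qu, norm_div, EE]
  field_simp

lemma EE_circle (p : Fin (m + 1) → ℂ) {ζ : ℂ} (hζ : ‖ζ‖ = 1) : EE p ζ = 0 := by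
  rw [EE, norm_circle p hζ, sub_self]

lemma NN_circle (p q : Fin (m + 1) → ℂ) {ζ : ℂ} (hζ : ‖ζ‖ = 1) : NN p q ζ = 0 := by
  rw [NN, SS_circle p hζ, SS_circle q hζ]
  have h1 : starRingEnd ℂ (ζ ^ m) * ζ ^ m = 1 := by
    rw [mul_comm, Complex.mul_conj, Complex.normSq_eq_norm_sq, norm_pow, hζ]
    simp
  have h2 : starRingEnd ℂ (ζ ^ m * starRingEnd ℂ ((PP p).eval ζ)) * (ζ ^ m * starRingEnd ℂ ((PP q).eval ζ)) =
      (PP p).eval ζ * starRingEnd ℂ ((PP q).eval ζ) := by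
    rw [map_mul, Complex.conj_conj]
    linear_combination ((PP p).eval ζ * starRingEnd ℂ ((PP q).eval ζ)) * h1
  rw [h2]
  simp

lemma EE_pos {p : Fin (m + 1) → ℂ} (hp : Good p) (hT : Pos p) {z : ℂ} (hz : ‖z‖ < 1) :
    0 < EE p z := by
  have h1 := hp z hz.le
  have h2 := one_sub_BB h1
  have h3 := BB_lt hp hT hz
  have h4 : 0 < 1 - ‖BB p z‖ ^ 2 := by
    have := norm_nonneg (BB p z)
    nlinarith
  rw [h2] at h4
  have h5 : 0 < ‖(SS p).eval z‖ ^ 2 := by positivity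
  exact (div_pos_iff_of_pos_right h5).mp h4

/-- a continuous function positive on the circle is bounded below near the circle -/
lemma near_circle {h : ℂ → ℝ} (hc : Continuous h) (hpos : ∀ ζ, ‖ζ‖ = 1 → 0 < h ζ) :
    ∃ r < 1, 0 < r ∧ ∃ c > 0, ∀ z, r ≤ ‖z‖ → ‖z‖ ≤ 1 → c ≤ h z := by
  have hs : IsCompact (sphere (0 : ℂ) 1) := isCompact_sphere _ _
  obtain ⟨ζ0, hζ0, hmin⟩ := hs.exists_isMinOn ⟨1, by simp⟩ hc.continuousOn
  have hc0 : 0 < h ζ0 := hpos ζ0 (by simpa using hζ0)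
  set c := h ζ0 / 2 with hcdef
  have hcpos : 0 < c := by positivity
  have hK : IsCompact {z : ℂ | z ∈ closedBall (0 : ℂ) 1 ∧ h z ≤ c} :=
    (isCompact_closedBall (0 : ℂ) 1).inter_right (isClosed_le hc continuous_const)
  rcases eq_empty_or_nonempty {z : ℂ | z ∈ closedBall (0 : ℂ) 1 ∧ h z ≤ c} with he | hne
  · refine ⟨1/2, by norm_num, by norm_num, c, hcpos, fun z _ hz => ?_⟩
    by_contra hlt
    push Not at hlt
    have : z ∈ {z : ℂ | z ∈ closedBall (0 : ℂ) 1 ∧ h z ≤ c} :=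
      ⟨mem_closedBall_zero_iff.mpr hz, hlt.le⟩
    rw [he] at this
    exact this
  · obtain ⟨z0, hz0, hmax⟩ := hK.exists_isMaxOn hne continuous_norm.continuousOn
    have hz01 : ‖z0‖ < 1 := by
      refine lt_of_le_of_ne (mem_closedBall_zero_iff.mp hz0.1) fun heq => ?_
      have h1 : h ζ0 ≤ h z0 := hmin (by simpa using heq)
      have h2 : h z0 ≤ c := hz0.2
      linarith
    refine ⟨(‖z0‖ + 1) / 2, by linarith, by have := norm_nonneg z0; linarith, c, hcpos,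
      fun z hz hz1 => ?_⟩
    by_contra hlt
    push Not at hlt
    have h1 : ‖z‖ ≤ ‖z0‖ := hmax (show z ∈ {z : ℂ | z ∈ closedBall (0 : ℂ) 1 ∧ h z ≤ c} from
      ⟨mem_closedBall_zero_iff.mpr hz1, hlt.le⟩)
    linarith

/-- smooth functions are Lipschitz on the closed disc -/
lemma exists_lip {N : ℂ → ℝ} (hN : ContDiff ℝ 1 N) :
    ∃ C ≥ 0, ∀ z w : ℂ, ‖z‖ ≤ 1 → ‖w‖ ≤ 1 → |N z - N w| ≤ C * ‖z - w‖ := by
  have hc : Continuous (fun z => ‖fderiv ℝ N z‖) := (hN.continuous_fderiv one_ne_zero).norm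
  obtain ⟨z0, -, hmax⟩ := (isCompact_closedBall (0 : ℂ) 1).exists_isMaxOn
    ⟨0, by simp⟩ hc.continuousOn
  refine ⟨‖fderiv ℝ N z0‖, norm_nonneg _, fun z w hz hw => ?_⟩
  have := (convex_closedBall (0 : ℂ) 1).norm_image_sub_le_of_norm_fderiv_le (f := N) (𝕜 := ℝ)
    (C := ‖fderiv ℝ N z0‖) (fun x _ => (hN.differentiable one_ne_zero) x)
    (fun x hx => hmax hx) (mem_closedBall_zero_iff.mpr hw) (mem_closedBall_zero_iff.mpr hz)
  simpa using this

lemma contDiff_eval (A : ℂ[X]) : ContDiff ℝ 1 (fun z : ℂ => A.eval z) := by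
  have h : ContDiff ℂ 1 (fun z : ℂ => A.eval z) := A.differentiable.contDiff
  exact h.restrict_scalars ℝ

lemma contDiff_re_conj_mul (A B : ℂ[X]) :
    ContDiff ℝ 1 (fun z : ℂ => (starRingEnd ℂ (A.eval z) * B.eval z).re) := by
  have h1 : ContDiff ℝ 1 (fun z : ℂ => starRingEnd ℂ (A.eval z)) :=
    Complex.conjCLE.toContinuousLinearMap.contDiff.comp (contDiff_eval A)
  exact Complex.reCLM.contDiff.comp (h1.mul (contDiff_eval B))

lemma contDiff_NN (p q : Fin (m + 1) → ℂ) : ContDiff ℝ 1 (NN p q) :=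
  (contDiff_re_conj_mul _ _).sub (contDiff_re_conj_mul _ _)

lemma EE_eq (p : Fin (m + 1) → ℂ) : EE p = fun z => - NN p p z := by
  funext z
  rw [EE, NN, norm_sq_eq, norm_sq_eq]
  ring

lemma contDiff_EE (p : Fin (m + 1) → ℂ) : ContDiff ℝ 1 (EE p) := by
  rw [EE_eq]
  exact (contDiff_NN p p).neg

lemma dist_circle {z : ℂ} (hz : z ≠ 0) (hz1 : ‖z‖ ≤ 1) :
    ‖z / ‖z‖‖ = 1 ∧ ‖z - z / ‖z‖‖ = 1 - ‖z‖ := by
  have h0 : ‖z‖ ≠ 0 := norm_ne_zero_iff.mpr hz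
  constructor
  · rw [norm_div, Complex.norm_real, norm_norm, div_self h0]
  · have : z - z / ‖z‖ = z * ((1 - 1 / ‖z‖ : ℝ) : ℂ) := by
      push_cast
      ring
    rw [this, norm_mul, Complex.norm_real, Real.norm_eq_abs]
    have h1 : (1 : ℝ) - 1 / ‖z‖ ≤ 0 := by
      have : 1 ≤ 1 / ‖z‖ := by
        rw [le_div_iff₀ (norm_pos_iff.mpr hz)]
        linarith
      linarith
    rw [abs_of_nonpos h1]
    field_simp
    ring

lemma NN_bound (p q : Fin (m + 1) → ℂ) :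
    ∃ C ≥ 0, ∀ z, z ≠ 0 → ‖z‖ ≤ 1 → |NN p q z| ≤ C * (1 - ‖z‖) := by
  obtain ⟨C, hC, h⟩ := exists_lip (contDiff_NN p q)
  refine ⟨C, hC, fun z hz hz1 => ?_⟩
  obtain ⟨h1, h2⟩ := dist_circle hz hz1
  have h3 := h z (z / ‖z‖) hz1 h1.le
  rw [NN_circle p q h1, sub_zero, h2] at h3
  exact h3

lemma EE_bound (p : Fin (m + 1) → ℂ) :
    ∃ C ≥ 0, ∀ z, z ≠ 0 → ‖z‖ ≤ 1 → EE p z ≤ C * (1 - ‖z‖) := by
  obtain ⟨C, hC, h⟩ := NN_bound p p
  refine ⟨C, hC, fun z hz hz1 => ?_⟩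
  have := h z hz hz1
  rw [EE_eq]
  exact (neg_le_abs _).trans this

/-- radial derivative of `EE`, times the radius -/
noncomputable def ee (p : Fin (m + 1) → ℂ) (z : ℂ) : ℝ :=
  2 * (starRingEnd ℂ ((SS p).eval z) * (DS p).eval z).re - 2 * (starRingEnd ℂ ((PP p).eval z) * (DP p).eval z).re

lemma ee_circle (p : Fin (m + 1) → ℂ) {ζ : ℂ} (hζ : ‖ζ‖ = 1) : ee p ζ = -(2 * TT p ζ) := by
  rw [ee, SS_circle p hζ, DS_circle p hζ, TT, Tb]
  have h1 : starRingEnd ℂ (ζ ^ m) * ζ ^ m = 1 := by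
    rw [mul_comm, Complex.mul_conj, Complex.normSq_eq_norm_sq, norm_pow, hζ]
    simp
  have h2 : starRingEnd ℂ (ζ ^ m * starRingEnd ℂ ((PP p).eval ζ)) * (ζ ^ m * starRingEnd ℂ (m * (PP p).eval ζ - (DP p).eval ζ)) =
      (PP p).eval ζ * starRingEnd ℂ (m * (PP p).eval ζ - (DP p).eval ζ) := by
    rw [map_mul, Complex.conj_conj]
    linear_combination ((PP p).eval ζ * starRingEnd ℂ (m * (PP p).eval ζ - (DP p).eval ζ)) * h1
  rw [h2]
  simp
  ring

lemma EE_radial (p : Fin (m + 1) → ℂ) (ζ : ℂ) {s : ℝ} (hs : 0 < s) :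
    HasDerivAt (fun s : ℝ => EE p (s * ζ)) (ee p (s * ζ) / s) s := by
  have hl : HasDerivAt (fun s : ℝ => (s : ℂ) * ζ) ζ s := by
    simpa using (Complex.ofRealCLM.hasDerivAt (x := s)).mul_const ζ
  have hA : ∀ A : ℂ[X], HasDerivAt (fun s : ℝ => A.eval ((s : ℂ) * ζ))
      ((derivative A).eval ((s : ℂ) * ζ) * ζ) s := fun A =>
    HasDerivAt.comp s (A.hasDerivAt _) hl
  have hA2 : ∀ A : ℂ[X], HasDerivAt (fun s : ℝ => ‖A.eval ((s : ℂ) * ζ)‖ ^ 2)
      (2 * (starRingEnd ℂ (A.eval ((s : ℂ) * ζ)) * ((derivative A).eval ((s : ℂ) * ζ) * ζ)).re) s := by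
    intro A
    have h1 := hA A
    have h2 : HasDerivAt (fun s : ℝ => starRingEnd ℂ (A.eval ((s : ℂ) * ζ)))
        (starRingEnd ℂ ((derivative A).eval ((s : ℂ) * ζ) * ζ)) s :=
      Complex.conjCLE.toContinuousLinearMap.hasFDerivAt.comp_hasDerivAt s h1
    have h3 := Complex.reCLM.hasFDerivAt.comp_hasDerivAt s (h2.mul h1)
    simp only [norm_sq_eq]
    refine h3.congr_deriv ?_
    simp
    ring
  have h := (hA2 (SS p)).sub (hA2 (PP p))
  refine h.congr_deriv ?_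
  have hs' : (s : ℂ) ≠ 0 := by exact_mod_cast hs.ne'
  have e1 : ∀ A : ℂ[X], (derivative A).eval ((s : ℂ) * ζ) * ζ =
      (X * derivative A).eval ((s : ℂ) * ζ) / s := by
    intro A
    rw [eval_mul, eval_X]
    field_simp
  rw [e1, e1, X_mul_derivative_SS, X_mul_derivative_PP, ee]
  have e2 : ∀ a b : ℂ, (a * (b / (s : ℂ))).re = (a * b).re / s := by
    intro a b
    rw [← mul_div_assoc, Complex.div_ofReal_re]
  rw [e2, e2]
  ring

lemma continuous_ee (p : Fin (m + 1) → ℂ) : Continuous (ee p) :=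
  ((contDiff_re_conj_mul _ _).continuous.const_mul 2 |> fun h => by
    simpa using h) |> fun h1 : Continuous (fun z : ℂ =>
      2 * (starRingEnd ℂ ((SS p).eval z) * (DS p).eval z).re) =>
    h1.sub ((continuous_const.mul (contDiff_re_conj_mul (PP p) (DP p)).continuous))

lemma EE_lower {p : Fin (m + 1) → ℂ} (hT : Pos p) :
    ∃ r < 1, 0 < r ∧ ∃ c > 0, ∀ z, r ≤ ‖z‖ → ‖z‖ ≤ 1 → c * (1 - ‖z‖) ≤ EE p z := by
  obtain ⟨r, hr, hr0, c, hc, h⟩ := near_circle (continuous_ee p).neg (fun ζ hζ => by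
    show 0 < -(ee p ζ)
    rw [ee_circle p hζ, neg_neg]
    have := hT ζ hζ
    positivity)
  refine ⟨r, hr, hr0, c, hc, fun z hz hz1 => ?_⟩
  have hz0 : z ≠ 0 := by
    rintro rfl
    rw [norm_zero] at hz
    linarith
  set ζ := z / (‖z‖ : ℂ) with hζ
  have hζ1 : ‖ζ‖ = 1 := (dist_circle hz0 hz1).1
  have hzζ : z = (‖z‖ : ℂ) * ζ := by
    rw [hζ]
    have : (‖z‖ : ℂ) ≠ 0 := by exact_mod_cast (norm_ne_zero_iff.mpr hz0)
    field_simp
  have hz0' : 0 < ‖z‖ := norm_pos_iff.mpr hz0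
  have hder : ∀ s ∈ Icc ‖z‖ 1, HasDerivAt (fun s : ℝ => EE p (s * ζ)) (ee p (s * ζ) / s) s :=
    fun s hs => EE_radial p ζ (hz0'.trans_le hs.1)
  have hmvt := (convex_Icc ‖z‖ 1).image_sub_le_mul_sub_of_deriv_le (f := fun s : ℝ => EE p (s * ζ))
    (fun s hs => (hder s hs).continuousAt.continuousWithinAt)
    (fun s hs => (hder s (interior_subset hs)).differentiableAt.differentiableWithinAt) (C := -c)
    (fun s hs => by
      have hs' := interior_subset hs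
      rw [(hder s hs').deriv]
      have hspos : 0 < s := hz0'.trans_le hs'.1
      have hn : ‖(s : ℂ) * ζ‖ = s := by
        rw [norm_mul, hζ1, mul_one, Complex.norm_real, Real.norm_eq_abs, abs_of_pos hspos]
      have h1 := h ((s : ℂ) * ζ) (by rw [hn]; exact hz.trans hs'.1) (by rw [hn]; exact hs'.2)
      rw [div_le_iff₀ hspos]
      have h2 : c ≤ -ee p (s * ζ) := h1
      have h3 : s ≤ 1 := hs'.2
      nlinarith) ‖z‖ (left_mem_Icc.mpr hz1) 1 (right_mem_Icc.mpr hz1) hz1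
  have h1 : EE p (((1 : ℝ) : ℂ) * ζ) = 0 := by
    rw [Complex.ofReal_one, one_mul]
    exact EE_circle p hζ1
  have hmvt' : EE p (((1 : ℝ) : ℂ) * ζ) - EE p ((‖z‖ : ℂ) * ζ) ≤ -c * (1 - ‖z‖) := hmvt
  rw [h1, ← hzζ] at hmvt'
  linarith

end Pool.Agent.H824MB
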