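import Pool.Agent.Helper824_mb.D2

/-!
Laplacians of some functions built from holomorphic functions.
-/

namespace Pool.Agent.H824MB

open Topology Filter Set Complex

/-- `s` has Laplacian `L` at `z` (in the sense of second derivatives along the two axes) -/
def Lap (s : ℂ → ℝ) (z : ℂ) (L : ℝ) : Prop :=
  ∃ a1 a2 b1 b2 : ℝ, D2 (fun t : ℝ => s (z + t * 1)) a1 b1 ∧
      D2 (fun t : ℝ => s (z + t * Complex.I)) a2 b2 ∧ b1 + b2 = L

lemma tendsto_line (z v : ℂ) : Tendsto (fun t : ℝ => z + (t : ℂ) * v) (𝓝 0) (𝓝 z) := by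
  have : ContinuousAt (fun t : ℝ => z + (t : ℂ) * v) 0 := by fun_prop
  unfold ContinuousAt at this
  simpa using this

lemma Lap.add {s s' : ℂ → ℝ} {z : ℂ} {L L' : ℝ} (h : Lap s z L) (h' : Lap s' z L') :
    Lap (fun w => s w + s' w) z (L + L') := by
  obtain ⟨a1, a2, b1, b2, h1, h2, rfl⟩ := h
  obtain ⟨a1', a2', b1', b2', h1', h2', rfl⟩ := h'
  exact ⟨_, _, _, _, h1.add h1', h2.add h2', by ring⟩

lemma Lap.sub {s s' : ℂ → ℝ} {z : ℂ} {L L' : ℝ} (h : Lap s z L) (h' : Lap s' z L') :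
    Lap (fun w => s w - s' w) z (L - L') := by
  obtain ⟨a1, a2, b1, b2, h1, h2, rfl⟩ := h
  obtain ⟨a1', a2', b1', b2', h1', h2', rfl⟩ := h'
  exact ⟨_, _, _, _, h1.sub h1', h2.sub h2', by ring⟩

lemma Lap.const_mul {s : ℂ → ℝ} {z : ℂ} {L : ℝ} (h : Lap s z L) (c : ℝ) :
    Lap (fun w => c * s w) z (c * L) := by
  obtain ⟨a1, a2, b1, b2, h1, h2, rfl⟩ := h
  refine ⟨_, _, _, _, (D2.const c).mul h1, (D2.const c).mul h2, ?_⟩
  simp
  ring

lemma Lap.congr {s s' : ℂ → ℝ} {z : ℂ} {L : ℝ} (h : Lap s z L) (hs : s' =ᶠ[𝓝 z] s) :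
    Lap s' z L := by
  obtain ⟨a1, a2, b1, b2, h1, h2, rfl⟩ := h
  exact ⟨_, _, _, _, h1.congr ((tendsto_line z 1).eventually hs),
    h2.congr ((tendsto_line z I).eventually hs), rfl⟩

lemma norm_sq_eq (w : ℂ) : ‖w‖ ^ 2 = (starRingEnd ℂ w * w).re := by
  rw [← Complex.normSq_eq_norm_sq, Complex.normSq_apply]
  simp

lemma norm_sq_eq' (w : ℂ) : ‖w‖ ^ 2 = w.re ^ 2 + w.im ^ 2 := by
  rw [← Complex.normSq_eq_norm_sq, Complex.normSq_apply]
  ring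

lemma D2.normSq {g : ℂ → ℂ} {z : ℂ} (hg : AnalyticAt ℂ g z) (v : ℂ) :
    D2 (fun t : ℝ => ‖g (z + t * v)‖ ^ 2) (2 * (starRingEnd ℂ (g z) * (deriv g z * v)).re)
      (2 * ‖deriv g z * v‖ ^ 2 + 2 * (starRingEnd ℂ (g z) * (deriv (deriv g) z * v ^ 2)).re) := by
  have h1 := D2.hol hg v
  have h2 := (h1.conj.mul h1).re
  simp only [norm_sq_eq]
  convert h2 using 1
  · simp
    ring
  · simp [pow_two]
    ring

/-- functions of `‖g‖^2` -/
lemma Lap.fnormSq {g : ℂ → ℂ} {z : ℂ} (hg : AnalyticAt ℂ g z) {φ φ' : ℝ → ℝ} {c : ℝ}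
    (h1 : ∀ᶠ x in 𝓝 (‖g z‖ ^ 2), HasDerivAt φ (φ' x) x)
    (h2 : HasDerivAt φ' c (‖g z‖ ^ 2)) :
    Lap (fun w => φ (‖g w‖ ^ 2)) z
      (4 * ‖deriv g z‖ ^ 2 * (c * ‖g z‖ ^ 2 + φ' (‖g z‖ ^ 2))) := by
  have k1 := (D2.normSq hg 1).comp (φ := φ) (φ' := φ') (c := c) (by simpa using h1)
    (by simpa using h2)
  have k2 := (D2.normSq hg I).comp (φ := φ) (φ' := φ') (c := c) (by simpa using h1)
    (by simpa using h2)
  refine ⟨_, _, _, _, k1, k2, ?_⟩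
  simp only [norm_sq_eq', ofReal_zero, zero_mul, add_zero]
  simp
  ring

lemma Lap.logNorm {q : ℂ → ℂ} {z : ℂ} (hq : AnalyticAt ℂ q z) (h0 : q z ≠ 0) :
    Lap (fun w => Real.log ‖q w‖) z 0 := by
  have hpos : (0 : ℝ) < ‖q z‖ ^ 2 := by positivity
  have h := Lap.fnormSq hq (φ := fun x => (1/2) * Real.log x) (φ' := fun x => (1/2) * x⁻¹)
    (c := (1/2) * (-((‖q z‖ ^ 2) ^ 2)⁻¹)) ?_ ?_
  · have e : (fun w => Real.log ‖q w‖) = fun w => (1/2) * Real.log (‖q w‖ ^ 2) := by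
      funext w
      rw [Real.log_pow]
      push_cast; ring
    rw [e]
    convert h using 1
    field_simp
    ring
  · filter_upwards [isOpen_ne.mem_nhds hpos.ne'] with x hx
    exact (Real.hasDerivAt_log hx).const_mul _
  · exact (hasDerivAt_inv hpos.ne').const_mul _

lemma Lap.logOne {g : ℂ → ℂ} {z : ℂ} (hg : AnalyticAt ℂ g z) (h0 : ‖g z‖ < 1) :
    Lap (fun w => Real.log (1 - ‖g w‖ ^ 2)) z (-4 * (‖deriv g z‖ / (1 - ‖g z‖ ^ 2)) ^ 2) := by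
  have hpos : 1 - ‖g z‖ ^ 2 ≠ 0 := by
    have : ‖g z‖ ^ 2 < 1 := by
      have := norm_nonneg (g z)
      nlinarith
    linarith
  have hd : ∀ x : ℝ, HasDerivAt (fun x : ℝ => 1 - x) (-1) x := fun x => by
    simpa using (hasDerivAt_id x).const_sub 1
  have h := Lap.fnormSq hg (φ := fun x => Real.log (1 - x)) (φ' := fun x => -(1 - x)⁻¹)
    (c := -((1 - ‖g z‖ ^ 2) ^ 2)⁻¹) ?_ ?_
  · convert h using 1
    field_simp
    ring
  · have : ∀ᶠ x in 𝓝 (‖g z‖ ^ 2), 1 - x ≠ 0 :=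
      ContinuousAt.eventually_ne (by fun_prop) hpos
    filter_upwards [this] with x hx
    have := (hd x).log hx
    refine this.congr_deriv ?_
    field_simp
  · have := ((hd (‖g z‖ ^ 2)).inv hpos).neg
    refine this.congr_deriv ?_
    field_simp

lemma Lap.V {g : ℂ → ℂ} {z : ℂ} (hg : AnalyticAt ℂ g z) (h0 : ‖g z‖ < 1) :
    Lap (fun w => 2 * (1 - ‖g w‖ ^ 2)⁻¹ - 1) z
      (8 * (‖deriv g z‖ / (1 - ‖g z‖ ^ 2)) ^ 2 * (2 * (1 - ‖g z‖ ^ 2)⁻¹ - 1)) := by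
  have hpos : 1 - ‖g z‖ ^ 2 ≠ 0 := by
    have : ‖g z‖ ^ 2 < 1 := by
      have := norm_nonneg (g z)
      nlinarith
    linarith
  have hd : ∀ x : ℝ, HasDerivAt (fun x : ℝ => 1 - x) (-1) x := fun x => by
    simpa using (hasDerivAt_id x).const_sub 1
  have h := Lap.fnormSq hg (φ := fun x => 2 * (1 - x)⁻¹ - 1) (φ' := fun x => 2 * ((1 - x) ^ 2)⁻¹)
    (c := 4 * ((1 - ‖g z‖ ^ 2) ^ 3)⁻¹) ?_ ?_
  · convert h using 1
    field_simp
    ring
  · have : ∀ᶠ x in 𝓝 (‖g z‖ ^ 2), 1 - x ≠ 0 :=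
      ContinuousAt.eventually_ne (by fun_prop) hpos
    filter_upwards [this] with x hx
    have := (((hd x).inv hx).const_mul 2).sub_const 1
    refine this.congr_deriv ?_
    field_simp
  · have := (((hd (‖g z‖ ^ 2)).fun_pow 2).inv (pow_ne_zero 2 hpos)).const_mul 2
    refine this.congr_deriv ?_
    field_simp
    ring

/-- the linearised equation -/
lemma Lap.lin {B F G : ℂ → ℂ} {z : ℂ} (hB : AnalyticAt ℂ B z) (hF : AnalyticAt ℂ F z)
    (hG : AnalyticAt ℂ G z) (h0 : ‖B z‖ < 1)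
    (hrel : deriv F z = B z * deriv G z - deriv B z * G z) :
    Lap (fun w => ((starRingEnd ℂ (B w) * F w).re - (G w).re) * (1 - ‖B w‖ ^ 2)⁻¹) z
      (8 * (‖deriv B z‖ / (1 - ‖B z‖ ^ 2)) ^ 2 *
        (((starRingEnd ℂ (B z) * F z).re - (G z).re) * (1 - ‖B z‖ ^ 2)⁻¹)) := by
  have hpos : 1 - ‖B z‖ ^ 2 ≠ 0 := by
    have : ‖B z‖ ^ 2 < 1 := by
      have := norm_nonneg (B z)
      nlinarith
    linarith
  have key : ∀ v : ℂ, D2 (fun t : ℝ => ((starRingEnd ℂ (B (z + t * v)) * F (z + t * v)).re -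
      (G (z + t * v)).re) * (1 - ‖B (z + t * v)‖ ^ 2)⁻¹) _ _ := fun v =>
    ((((D2.hol hB v).conj.mul (D2.hol hF v)).re.sub (D2.hol hG v).re).mul
      (((D2.const (1 : ℝ)).sub (D2.normSq hB v)).inv (by simpa using hpos)))
  refine ⟨_, _, _, _, key 1, key I, ?_⟩
  rw [hrel]
  have hpos' : 1 - ((B z).re ^ 2 + (B z).im ^ 2) ≠ 0 := by
    rw [← norm_sq_eq']; exact hpos
  simp only [norm_sq_eq', div_pow, ofReal_zero, zero_mul, add_zero]
  generalize B z = b at *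
  generalize F z = f at *
  generalize G z = g at *
  generalize deriv B z = b1 at *
  generalize deriv G z = g1 at *
  generalize deriv (deriv B) z = b2 at *
  generalize deriv (deriv F) z = f2 at *
  generalize deriv (deriv G) z = g2 at *
  simp
  field_simp
  ring

end Pool.Agent.H824MB
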