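import Pool.Agent.Helper824_mb.Calc

/-!
Moebius transformations of the disc and the Schwarz-Pick inequality.
-/

namespace Pool.Agent.H824MB

open Topology Filter Set Complex Metric

noncomputable def mob (a : ℂ) (w : ℂ) : ℂ := (w - a) / (1 - starRingEnd ℂ a * w)

lemma mob_den {a w : ℂ} (ha : ‖a‖ < 1) (hw : ‖w‖ < 1) : 1 - starRingEnd ℂ a * w ≠ 0 := by
  intro h
  have h1 : ‖starRingEnd ℂ a * w‖ = 1 := by rw [← sub_eq_zero.mp h]; simp
  rw [norm_mul, RCLike.norm_conj] at h1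
  nlinarith [norm_nonneg a, norm_nonneg w]

lemma mob_norm {a w : ℂ} (ha : ‖a‖ < 1) (hw : ‖w‖ < 1) : ‖mob a w‖ < 1 := by
  have h0 := mob_den ha hw
  rw [mob, norm_div, div_lt_one (norm_pos_iff.mpr h0)]
  have h1 : ‖1 - starRingEnd ℂ a * w‖ ^ 2 - ‖w - a‖ ^ 2 = (1 - ‖a‖ ^ 2) * (1 - ‖w‖ ^ 2) := by
    simp only [norm_sq_eq']
    simp
    ring
  have h2 : 0 < 1 - ‖a‖ ^ 2 := by nlinarith [norm_nonneg a]
  have h3 : 0 < 1 - ‖w‖ ^ 2 := by nlinarith [norm_nonneg w]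
  have h4 : ‖w - a‖ ^ 2 < ‖1 - starRingEnd ℂ a * w‖ ^ 2 := by nlinarith [mul_pos h2 h3]
  exact lt_of_pow_lt_pow_left₀ 2 (norm_nonneg _) h4

lemma mob_hasDerivAt {a w : ℂ} (ha : ‖a‖ < 1) (hw : ‖w‖ < 1) :
    HasDerivAt (mob a) ((1 - ‖a‖ ^ 2 : ℝ) / (1 - starRingEnd ℂ a * w) ^ 2) w := by
  have h0 := mob_den ha hw
  have h1 : HasDerivAt (fun w : ℂ => w - a) 1 w := (hasDerivAt_id w).sub_const a
  have h2 : HasDerivAt (fun w : ℂ => 1 - starRingEnd ℂ a * w) (-(starRingEnd ℂ a)) w := by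
    simpa using ((hasDerivAt_id w).const_mul (starRingEnd ℂ a)).const_sub 1
  have h3 := h1.div h2 h0
  refine h3.congr_deriv ?_
  congr 1
  have h4 : a * starRingEnd ℂ a = ((‖a‖ ^ 2 : ℝ) : ℂ) := by
    rw [Complex.mul_conj, Complex.normSq_eq_norm_sq]
  push_cast at h4 ⊢
  linear_combination -h4

lemma mob_diff {a : ℂ} (ha : ‖a‖ < 1) : DifferentiableOn ℂ (mob a) (ball 0 1) := fun _ hw =>
  (mob_hasDerivAt ha (mem_ball_zero_iff.mp hw)).differentiableAt.differentiableWithinAt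

lemma mob_maps {a : ℂ} (ha : ‖a‖ < 1) : MapsTo (mob a) (ball 0 1) (ball 0 1) := fun _ hw =>
  mem_ball_zero_iff.mpr (mob_norm ha (mem_ball_zero_iff.mp hw))

lemma mob_inv {a w : ℂ} (ha : ‖a‖ < 1) (hw : ‖w‖ < 1) : mob (-a) (mob a w) = w := by
  have h0 := mob_den ha hw
  have hna : ‖-a‖ < 1 := by rwa [norm_neg]
  have h1 := mob_den hna (mob_norm ha hw)
  have hv : mob a w * (1 - starRingEnd ℂ a * w) = w - a := by
    rw [mob, div_mul_cancel₀ _ h0]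
  rw [map_neg] at h1
  set v := mob a w with hvdef
  have e : mob (-a) v = (v - -a) / (1 - starRingEnd ℂ (-a) * v) := rfl
  rw [e, map_neg, div_eq_iff h1]
  apply mul_right_cancel₀ h0
  linear_combination (1 - w * starRingEnd ℂ a) * hv

lemma mob_self (a : ℂ) : mob a a = 0 := by simp [mob]

/-- **Schwarz-Pick.** -/
theorem schwarzPick {f : ℂ → ℂ} (hf : DifferentiableOn ℂ f (ball 0 1))
    (hm : MapsTo f (ball 0 1) (ball 0 1)) {z : ℂ} (hz : ‖z‖ < 1) :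
    ‖deriv f z‖ * (1 - ‖z‖ ^ 2) ≤ 1 - ‖f z‖ ^ 2 := by
  have hzb : z ∈ ball (0 : ℂ) 1 := mem_ball_zero_iff.mpr hz
  have hfz : ‖f z‖ < 1 := mem_ball_zero_iff.mp (hm hzb)
  have hnz : ‖-z‖ < 1 := by rwa [norm_neg]
  set g : ℂ → ℂ := fun w => mob (f z) (f (mob (-z) w)) with hg
  have h0 : mob (-z) 0 = z := by simp [mob]
  have hg0 : g 0 = 0 := by
    simp only [hg, h0, mob_self]
  have hmaps : MapsTo g (ball 0 1) (ball (g 0) 1) := by
    rw [hg0]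
    exact (mob_maps hfz).comp (hm.comp (mob_maps hnz))
  have hd : DifferentiableOn ℂ g (ball 0 1) :=
    (mob_diff hfz).comp (hf.comp (mob_diff hnz) (mob_maps hnz)) (hm.comp (mob_maps hnz))
  have h1 := Complex.norm_deriv_le_one_of_mapsTo_ball hd (fun w hw => ball_subset_closedBall (hmaps hw)) one_pos
  have hder : HasDerivAt g (((1 - ‖f z‖ ^ 2 : ℝ) / (1 - starRingEnd ℂ (f z) * f z) ^ 2) *
      (deriv f z * ((1 - ‖-z‖ ^ 2 : ℝ) / (1 - starRingEnd ℂ (-z) * 0) ^ 2))) 0 := by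
    have k1 := mob_hasDerivAt hnz (w := 0) (by simp)
    have k2 : HasDerivAt f (deriv f z) (mob (-z) 0) := by
      rw [h0]
      exact (hf.differentiableAt (isOpen_ball.mem_nhds hzb)).hasDerivAt
    have k3 : HasDerivAt (mob (f z)) ((1 - ‖f z‖ ^ 2 : ℝ) / (1 - starRingEnd ℂ (f z) * f z) ^ 2)
        (f (mob (-z) 0)) := by
      rw [h0]
      exact mob_hasDerivAt hfz hfz
    exact HasDerivAt.comp (0 : ℂ) k3 (HasDerivAt.comp (0 : ℂ) k2 k1)
  rw [hder.deriv] at h1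
  have hpos : 0 < 1 - ‖f z‖ ^ 2 := by nlinarith [norm_nonneg (f z)]
  have hpos' : 0 < 1 - ‖z‖ ^ 2 := by nlinarith [norm_nonneg z]
  have h4 : 1 - starRingEnd ℂ (f z) * f z = ((1 - ‖f z‖ ^ 2 : ℝ) : ℂ) := by
    rw [mul_comm, Complex.mul_conj, Complex.normSq_eq_norm_sq]
    push_cast; ring
  rw [h4, norm_mul, norm_mul, norm_div, norm_div, norm_pow, norm_neg, Complex.norm_real,
    Complex.norm_real, Real.norm_of_nonneg hpos.le, Real.norm_of_nonneg hpos'.le] at h1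
  simp only [mul_zero, sub_zero, one_pow, norm_one, div_one] at h1
  have h5 : (1 - ‖f z‖ ^ 2) / (1 - ‖f z‖ ^ 2) ^ 2 * (‖deriv f z‖ * (1 - ‖z‖ ^ 2)) =
      (‖deriv f z‖ * (1 - ‖z‖ ^ 2)) / (1 - ‖f z‖ ^ 2) := by
    field_simp
  rw [h5, div_le_one hpos] at h1
  exact h1

end Pool.Agent.H824MB
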