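import Pool.Agent.Helper824_mb.AS
import Pool.Agent.Helper824_mb.Mob

/-!
Comparison of two conformal metrics.
-/

namespace Pool.Agent.H824MB

open Topology Filter Set Complex Polynomial Metric

variable {m : ℕ}

lemma one_sub_pos {g : ℂ → ℂ} (hm : MapsTo g (ball 0 1) (ball 0 1)) {z : ℂ} (hz : ‖z‖ < 1) :
    0 < 1 - ‖g z‖ ^ 2 := by
  have h1 := mem_ball_zero_iff.mp (hm (mem_ball_zero_iff.mpr hz))
  nlinarith [norm_nonneg (g z)]

/-- the comparison function -/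
noncomputable def rho (p : Fin (m + 1) → ℂ) (A Cc f h q : ℂ → ℂ) (z : ℂ) : ℝ :=
  ‖h z * q z‖ * (1 - ‖BB p z‖ ^ 2) * (1 - ‖Cc z‖ ^ 2) / ((1 - ‖A z‖ ^ 2) * (1 - ‖f z‖ ^ 2))

theorem cmp {p : Fin (m + 1) → ℂ} (hp : Good p) (hT : Pos p) {A Cc f h q : ℂ → ℂ}
    (hA : DifferentiableOn ℂ A (ball 0 1)) (hAm : MapsTo A (ball 0 1) (ball 0 1))
    (hC : DifferentiableOn ℂ Cc (ball 0 1)) (hCm : MapsTo Cc (ball 0 1) (ball 0 1))
    (hf : DifferentiableOn ℂ f (ball 0 1)) (hfm : MapsTo f (ball 0 1) (ball 0 1))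
    (hh : DifferentiableOn ℂ h (ball 0 1)) (hq : DifferentiableOn ℂ q (ball 0 1))
    (hSP : ∀ z, ‖z‖ < 1 → ‖deriv A z‖ * (1 - ‖Cc z‖ ^ 2) ≤ ‖deriv Cc z‖ * (1 - ‖A z‖ ^ 2))
    (hrf : ∀ z, ‖z‖ < 1 → deriv f z = h z * deriv Cc z)
    (hrA : ∀ z, ‖z‖ < 1 → deriv A z = q z * deriv (BB p) z)
    (hm : ∀ z, ‖z‖ < 1 → 1 < rho p A Cc f h q z → 1 ≤ ‖h z‖ * (1 - ‖Cc z‖ ^ 2) / (1 - ‖f z‖ ^ 2)) :
    ∀ z, ‖z‖ < 1 → rho p A Cc f h q z ≤ 1 := by
  have hBan : ∀ z, ‖z‖ < 1 → AnalyticAt ℂ (BB p) z := fun z hz =>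
    qu_analyticAt (PP p) (SS p) (hp z hz.le)
  have hBlt : ∀ z, ‖z‖ < 1 → ‖BB p z‖ < 1 := fun z hz => BB_lt hp hT hz
  have hbpos : ∀ z, ‖z‖ < 1 → 0 < 1 - ‖BB p z‖ ^ 2 := fun z hz => by
    nlinarith [norm_nonneg (BB p z), hBlt z hz]
  have han : ∀ {g : ℂ → ℂ}, DifferentiableOn ℂ g (ball 0 1) → ∀ z, ‖z‖ < 1 → AnalyticAt ℂ g z :=
    fun hg z hz => hg.analyticAt (isOpen_ball.mem_nhds (mem_ball_zero_iff.mpr hz))
  apply AS hp hT
  · -- continuity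
    intro z hz
    have hz' := mem_ball_zero_iff.mp hz
    apply ContinuousAt.continuousWithinAt
    have c1 := (han hh z hz').continuousAt
    have c2 := (han hq z hz').continuousAt
    have c3 := (hBan z hz').continuousAt
    have c4 := (han hC z hz').continuousAt
    have c5 := (han hA z hz').continuousAt
    have c6 := (han hf z hz').continuousAt
    apply ContinuousAt.div
    · exact ((c1.mul c2).norm.mul (continuousAt_const.sub (c3.norm.pow 2))).mul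
        (continuousAt_const.sub (c4.norm.pow 2))
    · exact (continuousAt_const.sub (c5.norm.pow 2)).mul (continuousAt_const.sub (c6.norm.pow 2))
    · exact (mul_pos (one_sub_pos hAm hz') (one_sub_pos hfm hz')).ne'
  · -- bound near the boundary
    obtain ⟨M, hM, r, hr, hrat⟩ := ratio_bound hp hT
    refine ⟨r, hr, M, fun z hz hz1 => ?_⟩
    have ha := one_sub_pos hAm hz1
    have hc := one_sub_pos hCm hz1
    have hd := one_sub_pos hfm hz1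
    obtain ⟨-, h1⟩ := hrat z hz hz1
    have h2 := hSP z hz1
    have h3 := schwarzPick hf hfm hz1
    rw [rho, div_le_iff₀ (mul_pos ha hd)]
    have hnA : ‖q z‖ * ‖deriv (BB p) z‖ = ‖deriv A z‖ := by rw [hrA z hz1, norm_mul]
    have hnf : ‖h z‖ * ‖deriv Cc z‖ = ‖deriv f z‖ := by rw [hrf z hz1, norm_mul]
    have hzz : 0 < 1 - ‖z‖ ^ 2 := by nlinarith [norm_nonneg z]
    rw [norm_mul]
    calc ‖h z‖ * ‖q z‖ * (1 - ‖BB p z‖ ^ 2) * (1 - ‖Cc z‖ ^ 2)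
        ≤ ‖h z‖ * ‖q z‖ * (M * ((1 - ‖z‖ ^ 2) * ‖deriv (BB p) z‖)) * (1 - ‖Cc z‖ ^ 2) := by
          gcongr
      _ = M * (1 - ‖z‖ ^ 2) * ‖h z‖ * (‖q z‖ * ‖deriv (BB p) z‖ * (1 - ‖Cc z‖ ^ 2)) := by ring
      _ ≤ M * (1 - ‖z‖ ^ 2) * ‖h z‖ * (‖deriv Cc z‖ * (1 - ‖A z‖ ^ 2)) := by
          rw [hnA]
          gcongr
      _ = M * (‖h z‖ * ‖deriv Cc z‖ * (1 - ‖z‖ ^ 2)) * (1 - ‖A z‖ ^ 2) := by ring
      _ ≤ M * (1 - ‖f z‖ ^ 2) * (1 - ‖A z‖ ^ 2) := by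
          rw [hnf]
          gcongr
      _ = M * ((1 - ‖A z‖ ^ 2) * (1 - ‖f z‖ ^ 2)) := by ring
  · -- the differential inequality
    intro z hz hϱ
    have ha := one_sub_pos hAm hz
    have hc := one_sub_pos hCm hz
    have hd := one_sub_pos hfm hz
    have hb := hbpos z hz
    have hm1 := hm z hz hϱ
    have hne : h z * q z ≠ 0 := by
      intro h0
      rw [rho, h0] at hϱ
      simp at hϱ
      linarith
    have anh := han hh z hz
    have anq := han hq z hz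
    have anA := han hA z hz
    have anC := han hC z hz
    have anf := han hf z hz
    have lt1 : ∀ {g : ℂ → ℂ}, MapsTo g (ball 0 1) (ball 0 1) → ‖g z‖ < 1 := fun hg =>
      mem_ball_zero_iff.mp (hg (mem_ball_zero_iff.mpr hz))
    have L1 := Lap.logNorm (anh.mul anq) hne
    have L2 := Lap.logOne (hBan z hz) (hBlt z hz)
    have L3 := Lap.logOne anC (lt1 hCm)
    have L4 := Lap.logOne anA (lt1 hAm)
    have L5 := Lap.logOne anf (lt1 hfm)
    have LL := (((L1.add L2).add L3).sub L4).sub L5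
    refine ⟨_, LL.congr ?_, ?_⟩
    · have e1 : ∀ᶠ w in 𝓝 z, h w * q w ≠ 0 := (anh.mul anq).continuousAt.eventually_ne hne
      filter_upwards [isOpen_ball.mem_nhds (mem_ball_zero_iff.mpr hz), e1] with w hw hw1
      have hw' := mem_ball_zero_iff.mp hw
      have ha := one_sub_pos hAm hw'
      have hc := one_sub_pos hCm hw'
      have hd := one_sub_pos hfm hw'
      have hb := hbpos w hw'
      have hn : 0 < ‖h w * q w‖ := norm_pos_iff.mpr hw1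
      rw [rho, Real.log_div (by positivity) (by positivity), Real.log_mul (by positivity) hc.ne',
        Real.log_mul hn.ne' hb.ne', Real.log_mul ha.ne' hd.ne']
      simp only [Pi.mul_apply]
      ring
    · have hnA : ‖q z‖ * ‖deriv (BB p) z‖ = ‖deriv A z‖ := by rw [hrA z hz, norm_mul]
      have hnf : ‖h z‖ * ‖deriv Cc z‖ = ‖deriv f z‖ := by rw [hrf z hz, norm_mul]
      have e1 : rho p A Cc f h q z * (‖deriv (BB p) z‖ / (1 - ‖BB p z‖ ^ 2)) =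
          (‖h z‖ * (1 - ‖Cc z‖ ^ 2) / (1 - ‖f z‖ ^ 2)) * (‖deriv A z‖ / (1 - ‖A z‖ ^ 2)) := by
        rw [rho, ← hnA, norm_mul]
        field_simp
      have e2 : ‖deriv f z‖ / (1 - ‖f z‖ ^ 2) =
          (‖h z‖ * (1 - ‖Cc z‖ ^ 2) / (1 - ‖f z‖ ^ 2)) * (‖deriv Cc z‖ / (1 - ‖Cc z‖ ^ 2)) := by
        rw [← hnf]
        field_simp
      have e3 : ‖deriv A z‖ / (1 - ‖A z‖ ^ 2) ≤ ‖deriv Cc z‖ / (1 - ‖Cc z‖ ^ 2) := by
        rw [div_le_div_iff₀ ha hc]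
        exact hSP z hz
      have e0 : 0 ≤ ‖deriv A z‖ / (1 - ‖A z‖ ^ 2) := by positivity
      rw [e2]
      generalize ‖h z‖ * (1 - ‖Cc z‖ ^ 2) / (1 - ‖f z‖ ^ 2) = μ at *
      generalize ‖deriv A z‖ / (1 - ‖A z‖ ^ 2) = α at *
      generalize ‖deriv Cc z‖ / (1 - ‖Cc z‖ ^ 2) = γ at *
      generalize ‖deriv (BB p) z‖ / (1 - ‖BB p z‖ ^ 2) = β at *
      generalize rho p A Cc f h q z = ϱ at *
      have e4 : (ϱ * β) ^ 2 = (μ * α) ^ 2 := by rw [e1]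
      have e5 : 0 ≤ (μ ^ 2 - 1) * (γ ^ 2 - α ^ 2) := by
        apply mul_nonneg
        · nlinarith
        · nlinarith
      nlinarith

end Pool.Agent.H824MB
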