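import Mathlib

/-!
Second derivatives along lines, and a maximum principle.
-/

namespace Pool.Agent.H824MB

open Topology Filter Set

/-- `u` is differentiable near `0` with `u' 0 = a`, `u'' 0 = b` -/
def D2 {E : Type*} [NormedAddCommGroup E] [NormedSpace ℝ E] (u : ℝ → E) (a b : E) : Prop :=
  ∃ u' : ℝ → E, (∀ᶠ t in 𝓝 0, HasDerivAt u (u' t) t) ∧ u' 0 = a ∧ HasDerivAt u' b 0

section
variable {E : Type*} [NormedAddCommGroup E] [NormedSpace ℝ E]

lemma D2.cont {u : ℝ → E} {a b : E} (h : D2 u a b) : ContinuousAt u 0 := by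
  obtain ⟨u', h1, -, -⟩ := h
  exact h1.self_of_nhds.continuousAt

lemma D2.hasDerivAt {u : ℝ → E} {a b : E} (h : D2 u a b) : HasDerivAt u a 0 := by
  obtain ⟨u', h1, h2, -⟩ := h
  rw [← h2]
  exact h1.self_of_nhds

lemma D2.const (c : E) : D2 (fun _ => c) 0 0 :=
  ⟨fun _ => 0, Eventually.of_forall fun t => hasDerivAt_const t c, rfl, hasDerivAt_const 0 0⟩

lemma D2.add {u v : ℝ → E} {a b c d : E} (h : D2 u a b) (h' : D2 v c d) :
    D2 (fun t => u t + v t) (a + c) (b + d) := by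
  obtain ⟨u', h1, h2, h3⟩ := h
  obtain ⟨v', k1, k2, k3⟩ := h'
  refine ⟨fun t => u' t + v' t, ?_, ?_, ?_⟩
  · filter_upwards [h1, k1] with t ht kt
    exact ht.add kt
  · simp only [h2, k2]
  · exact h3.add k3

lemma D2.neg {u : ℝ → E} {a b : E} (h : D2 u a b) : D2 (fun t => -u t) (-a) (-b) := by
  obtain ⟨u', h1, h2, h3⟩ := h
  refine ⟨fun t => -u' t, ?_, ?_, ?_⟩
  · filter_upwards [h1] with t ht
    exact ht.neg
  · simp only [h2]
  · exact h3.neg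

lemma D2.sub {u v : ℝ → E} {a b c d : E} (h : D2 u a b) (h' : D2 v c d) :
    D2 (fun t => u t - v t) (a - c) (b - d) := by
  have := h.add h'.neg
  simpa only [sub_eq_add_neg] using this

lemma D2.congr {u v : ℝ → E} {a b : E} (h : D2 u a b) (huv : v =ᶠ[𝓝 0] u) : D2 v a b := by
  obtain ⟨u', h1, h2, h3⟩ := h
  refine ⟨u', ?_, h2, h3⟩
  filter_upwards [h1, huv.eventually_nhds] with t ht ht'
  exact ht.congr_of_eventuallyEq ht'

lemma D2.unique {u : ℝ → E} {a b a' b' : E} (h : D2 u a b) (h' : D2 u a' b') :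
    a = a' ∧ b = b' := by
  obtain ⟨u', h1, h2, h3⟩ := h
  obtain ⟨v', k1, k2, k3⟩ := h'
  have h4 : u' =ᶠ[𝓝 0] v' := by
    filter_upwards [h1, k1] with t ht kt
    exact ht.unique kt
  refine ⟨by rw [← h2, ← k2]; exact h4.self_of_nhds, ?_⟩
  exact h3.unique (k3.congr_of_eventuallyEq h4)

end

lemma D2.mul {A : Type*} [NormedRing A] [NormedAlgebra ℝ A] {u v : ℝ → A} {a b c d : A}
    (h : D2 u a b) (h' : D2 v c d) :
    D2 (fun t => u t * v t) (a * v 0 + u 0 * c) (b * v 0 + 2 • (a * c) + u 0 * d) := by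
  have hu0 := h.hasDerivAt
  have hv0 := h'.hasDerivAt
  obtain ⟨u', h1, h2, h3⟩ := h
  obtain ⟨v', k1, k2, k3⟩ := h'
  refine ⟨fun t => u' t * v t + u t * v' t, ?_, ?_, ?_⟩
  · filter_upwards [h1, k1] with t ht kt
    exact ht.mul kt
  · simp only [h2, k2]
  · have e1 := (h3.mul hv0).add (hu0.mul k3)
    refine e1.congr_deriv ?_
    rw [h2, k2]
    rw [two_nsmul]
    abel

lemma D2.re {u : ℝ → ℂ} {a b : ℂ} (h : D2 u a b) : D2 (fun t => (u t).re) a.re b.re := by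
  obtain ⟨u', h1, h2, h3⟩ := h
  refine ⟨fun t => (u' t).re, ?_, ?_, ?_⟩
  · filter_upwards [h1] with t ht
    exact (Complex.reCLM.hasFDerivAt.comp_hasDerivAt t ht)
  · simp only [h2]
  · exact (Complex.reCLM.hasFDerivAt.comp_hasDerivAt 0 h3)

lemma D2.conj {u : ℝ → ℂ} {a b : ℂ} (h : D2 u a b) :
    D2 (fun t => starRingEnd ℂ (u t)) (starRingEnd ℂ a) (starRingEnd ℂ b) := by
  obtain ⟨u', h1, h2, h3⟩ := h
  refine ⟨fun t => starRingEnd ℂ (u' t), ?_, ?_, ?_⟩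
  · filter_upwards [h1] with t ht
    exact (Complex.conjCLE.toContinuousLinearMap.hasFDerivAt.comp_hasDerivAt t ht)
  · simp only [h2]
  · exact (Complex.conjCLE.toContinuousLinearMap.hasFDerivAt.comp_hasDerivAt 0 h3)

/-- chain rule for real functions -/
lemma D2.comp {u : ℝ → ℝ} {a b : ℝ} (h : D2 u a b) {φ φ' : ℝ → ℝ} {c : ℝ}
    (h1 : ∀ᶠ x in 𝓝 (u 0), HasDerivAt φ (φ' x) x) (h2 : HasDerivAt φ' c (u 0)) :
    D2 (fun t => φ (u t)) (φ' (u 0) * a) (c * a ^ 2 + φ' (u 0) * b) := by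
  have hu0 := h.hasDerivAt
  have hcont := h.cont
  obtain ⟨u', k1, k2, k3⟩ := h
  refine ⟨fun t => φ' (u t) * u' t, ?_, ?_, ?_⟩
  · filter_upwards [k1, hcont.eventually h1] with t ht ht'
    exact ht'.comp t ht
  · simp only [k2]
  · have e1 : HasDerivAt (fun t => φ' (u t)) (c * a) 0 := h2.comp 0 hu0
    have e2 := e1.mul k3
    refine e2.congr_deriv ?_
    rw [k2]; ring

lemma D2.log {u : ℝ → ℝ} {a b : ℝ} (h : D2 u a b) (h0 : u 0 ≠ 0) :
    D2 (fun t => Real.log (u t)) (a / u 0) (b / u 0 - (a / u 0) ^ 2) := by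
  have e := h.comp (φ := Real.log) (φ' := fun x => x⁻¹) (c := -((u 0) ^ 2)⁻¹) ?_ ?_
  · have e1 : (u 0)⁻¹ * a = a / u 0 := by rw [div_eq_mul_inv]; ring
    have e2 : -((u 0) ^ 2)⁻¹ * a ^ 2 + (u 0)⁻¹ * b = b / u 0 - (a / u 0) ^ 2 := by
      field_simp
      ring
    rw [e1, e2] at e
    exact e
  · filter_upwards [isOpen_ne.mem_nhds h0] with x hx
    exact Real.hasDerivAt_log hx
  · exact hasDerivAt_inv h0

lemma D2.inv {u : ℝ → ℝ} {a b : ℝ} (h : D2 u a b) (h0 : u 0 ≠ 0) :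
    D2 (fun t => (u t)⁻¹) (-a / u 0 ^ 2) (2 * a ^ 2 / u 0 ^ 3 - b / u 0 ^ 2) := by
  have e := h.comp (φ := fun x => x⁻¹) (φ' := fun x => -(x ^ 2)⁻¹) (c := 2 * (u 0 ^ 3)⁻¹) ?_ ?_
  · have e1 : -(u 0 ^ 2)⁻¹ * a = -a / u 0 ^ 2 := by field_simp
    have e2 : 2 * (u 0 ^ 3)⁻¹ * a ^ 2 + -(u 0 ^ 2)⁻¹ * b = 2 * a ^ 2 / u 0 ^ 3 - b / u 0 ^ 2 := by
      field_simp
      ring
    rw [← e1, ← e2]
    exact e
  · filter_upwards [isOpen_ne.mem_nhds h0] with x hx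
    exact hasDerivAt_inv hx
  · have h1 : HasDerivAt (fun x : ℝ => x ^ 2) (2 * u 0) (u 0) := by
      simpa using hasDerivAt_pow 2 (u 0)
    have h2 := (h1.inv (pow_ne_zero 2 h0)).neg
    refine h2.congr_deriv ?_
    field_simp

lemma D2.localMax {u : ℝ → ℝ} {a b : ℝ} (h : D2 u a b) (hm : IsLocalMax u 0) : a = 0 ∧ b ≤ 0 := by
  have ha : a = 0 := by
    have := hm.deriv_eq_zero
    rw [h.hasDerivAt.deriv] at this
    exact this
  refine ⟨ha, ?_⟩
  by_contra hb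
  push Not at hb
  have hcont := h.cont
  have h' := h
  obtain ⟨u', k1, k2, k3⟩ := h
  have e1 : deriv u =ᶠ[𝓝 0] u' := by
    filter_upwards [k1] with t ht
    exact ht.deriv
  have e2 : deriv (deriv u) 0 = b := by
    rw [e1.deriv_eq]
    exact k3.deriv
  have hmin : IsLocalMin u 0 := isLocalMin_of_deriv_deriv_pos (by rw [e2]; exact hb)
    (by rw [h'.hasDerivAt.deriv, ha]) hcont
  have hconst : u =ᶠ[𝓝 0] fun _ => u 0 := by
    filter_upwards [hm, hmin] with t ht ht'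
    exact le_antisymm ht ht'
  have h2 := (D2.const (u 0)).congr hconst
  have := (h'.unique h2).2
  rw [this] at hb
  exact lt_irrefl _ hb

/-- holomorphic functions along lines -/
lemma D2.hol {g : ℂ → ℂ} {z : ℂ} (hg : AnalyticAt ℂ g z) (v : ℂ) :
    D2 (fun t : ℝ => g (z + t * v)) (deriv g z * v) (deriv (deriv g) z * v ^ 2) := by
  have hline : ∀ t : ℝ, HasDerivAt (fun t : ℝ => z + (t : ℂ) * v) v t := by
    intro t
    have h1 : HasDerivAt (fun t : ℝ => (t : ℂ)) 1 t := Complex.ofRealCLM.hasDerivAt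
    simpa using (h1.mul_const v).const_add z
  have hcont : Tendsto (fun t : ℝ => z + (t : ℂ) * v) (𝓝 0) (𝓝 z) := by
    have := (hline 0).continuousAt
    unfold ContinuousAt at this
    simpa using this
  refine ⟨fun t => deriv g (z + t * v) * v, ?_, by simp, ?_⟩
  · filter_upwards [hcont.eventually hg.eventually_analyticAt] with t ht
    exact HasDerivAt.comp t ht.differentiableAt.hasDerivAt (hline t)
  · have h1 : HasDerivAt (deriv g) (deriv (deriv g) z) (z + ((0 : ℝ) : ℂ) * v) := by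
      simpa using hg.deriv.differentiableAt.hasDerivAt
    have h2 := (HasDerivAt.comp (0 : ℝ) h1 (hline 0)).mul_const v
    refine h2.congr_deriv ?_
    ring

/-- the function `|z|^2` along lines -/
lemma D2.sq (z v : ℂ) : D2 (fun t : ℝ => ‖z + t * v‖ ^ 2) (2 * (starRingEnd ℂ z * v).re)
    (2 * ‖v‖ ^ 2) := by
  have h1 := D2.hol (g := fun w => w) (z := z) analyticAt_id v
  have h2 := (h1.conj.mul h1).re
  have e : ∀ w : ℂ, ‖w‖ ^ 2 = (starRingEnd ℂ w * w).re := by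
    intro w
    rw [← Complex.normSq_eq_norm_sq, Complex.normSq_apply]
    simp
  simp only [e]
  convert h2 using 1
  · simp
    ring
  · simp

/-- **Maximum principle.** -/
theorem maxp {Ω : Set ℂ} (hΩ : IsOpen Ω) {R : ℝ} (hR : ∀ z ∈ Ω, ‖z‖ ≤ R) (s : ℂ → ℝ)
    (hs : ∀ z ∈ Ω, 0 < s z → ∃ a1 a2 b1 b2 : ℝ, D2 (fun t : ℝ => s (z + t * 1)) a1 b1 ∧
      D2 (fun t : ℝ => s (z + t * Complex.I)) a2 b2 ∧ 0 ≤ b1 + b2)
    (hc : ContinuousOn s Ω)
    (hK : ∀ δ > 0, IsCompact {z | z ∈ Ω ∧ δ ≤ s z}) : ∀ z ∈ Ω, s z ≤ 0 := by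
  intro z1 hz1
  by_contra hpos
  push Not at hpos
  set δ := s z1 / 2 with hδ
  have hδ0 : 0 < δ := by positivity
  set ε := δ / (R ^ 2 + 1) / 2 with hε
  have hε0 : 0 < ε := by positivity
  have hεR : ε * R ^ 2 < δ := by
    rw [hε]
    have : R ^ 2 < R ^ 2 + 1 := by linarith
    calc δ / (R ^ 2 + 1) / 2 * R ^ 2 = (δ / 2) * (R ^ 2 / (R ^ 2 + 1)) := by ring
      _ ≤ (δ / 2) * 1 := by
        apply mul_le_mul_of_nonneg_left _ (by positivity)
        rw [div_le_one (by positivity)]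
        exact this.le
      _ < δ := by linarith
  have hsq : ∀ z ∈ Ω, ε * ‖z‖ ^ 2 < δ := by
    intro z hz
    have h1 : ‖z‖ ^ 2 ≤ R ^ 2 := pow_le_pow_left₀ (norm_nonneg z) (hR z hz) 2
    nlinarith
  have hKc := hK δ hδ0
  have hz1K : z1 ∈ {z | z ∈ Ω ∧ δ ≤ s z} := ⟨hz1, by rw [hδ]; linarith⟩
  have hcont : ContinuousOn (fun z => s z + ε * ‖z‖ ^ 2) {z | z ∈ Ω ∧ δ ≤ s z} := by
    apply ContinuousOn.add (hc.mono fun z hz => hz.1)
    fun_prop
  obtain ⟨z0, hz0, hmax⟩ := hKc.exists_isMaxOn ⟨z1, hz1K⟩ hcont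
  have h1 : s z1 + ε * ‖z1‖ ^ 2 ≤ s z0 + ε * ‖z0‖ ^ 2 := hmax hz1K
  have h2 : δ < s z0 := by
    have := hsq z0 hz0.1
    have h3 : 0 ≤ ε * ‖z1‖ ^ 2 := by positivity
    have h4 : s z1 = 2 * δ := by rw [hδ]; ring
    linarith
  have hlm : ∀ᶠ z in 𝓝 z0, s z + ε * ‖z‖ ^ 2 ≤ s z0 + ε * ‖z0‖ ^ 2 := by
    filter_upwards [hΩ.mem_nhds hz0.1] with z hz
    by_cases hzs : δ ≤ s z
    · exact hmax (show z ∈ {z | z ∈ Ω ∧ δ ≤ s z} from ⟨hz, hzs⟩)
    · push Not at hzs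
      have h5 := hsq z hz
      have h6 : 0 ≤ ε * ‖z1‖ ^ 2 := by positivity
      have h4 : s z1 = 2 * δ := by rw [hδ]; ring
      linarith
  obtain ⟨a1, a2, b1, b2, k1, k2, k3⟩ := hs z0 hz0.1 (hδ0.trans h2)
  have hline : ∀ v : ℂ, Tendsto (fun t : ℝ => z0 + (t : ℂ) * v) (𝓝 0) (𝓝 z0) := by
    intro v
    have : ContinuousAt (fun t : ℝ => z0 + (t : ℂ) * v) 0 := by fun_prop
    unfold ContinuousAt at this
    simpa using this
  have hloc : ∀ v : ℂ, IsLocalMax (fun t : ℝ => s (z0 + t * v) + ε * ‖z0 + t * v‖ ^ 2) 0 := by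
    intro v
    have := (hline v).eventually hlm
    filter_upwards [this] with t ht
    simpa using ht
  have key : ∀ (v : ℂ) (a b : ℝ), ‖v‖ = 1 → D2 (fun t : ℝ => s (z0 + t * v)) a b →
      b + 2 * ε ≤ 0 := by
    intro v a b hv h
    have h5 := h.add ((D2.const ε).mul (D2.sq z0 v))
    have h6 := (h5.localMax (hloc v)).2
    rw [hv] at h6
    simp at h6
    linarith
  have e1 := key 1 a1 b1 (by simp) k1
  have e2 := key Complex.I a2 b2 (by simp) k2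
  linarith

end Pool.Agent.H824MB
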