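import Mathlib

/-!
Orders of vanishing, quotients, and limits of analytic functions on the disc.
-/

namespace Pool.Agent.H824MB

open Topology Filter Set Complex Polynomial Metric

/-- quotient of analytic functions on the disc -/
lemma exists_quot {φ ψ : ℂ → ℂ} (hφ : AnalyticOnNhd ℂ φ (ball 0 1))
    (hψ : AnalyticOnNhd ℂ ψ (ball 0 1))
    (hne : ∀ z ∈ ball (0 : ℂ) 1, analyticOrderAt ψ z ≠ ⊤)
    (hle : ∀ z ∈ ball (0 : ℂ) 1, analyticOrderAt ψ z ≤ analyticOrderAt φ z) :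
    ∃ h : ℂ → ℂ, DifferentiableOn ℂ h (ball 0 1) ∧ ∀ z ∈ ball (0 : ℂ) 1, φ z = h z * ψ z := by
  classical
  set h : ℂ → ℂ := fun z => if ψ z = 0 then limUnder (𝓝[≠] z) (fun w => φ w / ψ w)
    else φ z / ψ z with hh
  have key : ∀ z ∈ ball (0 : ℂ) 1, ∃ a b : ℂ → ℂ, ∃ j : ℕ, AnalyticAt ℂ a z ∧ AnalyticAt ℂ b z ∧
      b z ≠ 0 ∧ (∀ᶠ w in 𝓝 z, h w = a w / b w) ∧ (∀ᶠ w in 𝓝 z, φ w = (w - z) ^ j * a w) ∧
      (∀ᶠ w in 𝓝 z, ψ w = (w - z) ^ j * b w) := by
    intro z hz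
    obtain ⟨b, hb, hb0, hψb⟩ := (hψ z hz).analyticOrderAt_ne_top.mp (hne z hz)
    set j := analyticOrderNatAt ψ z with hj
    have hjle : (j : ℕ∞) ≤ analyticOrderAt φ z := by
      rw [hj, Nat.cast_analyticOrderNatAt (hne z hz)]
      exact hle z hz
    obtain ⟨a, ha, hφa⟩ := (natCast_le_analyticOrderAt (hφ z hz)).mp hjle
    simp only [smul_eq_mul] at hψb hφa
    have hbne : ∀ᶠ w in 𝓝 z, b w ≠ 0 := hb.continuousAt.eventually_ne hb0
    refine ⟨a, b, j, ha, hb, hb0, ?_, hφa, hψb⟩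
    have hpun : ∀ᶠ w in 𝓝 z, w ≠ z → φ w / ψ w = a w / b w ∧ ψ w ≠ 0 := by
      filter_upwards [hφa, hψb, hbne] with w h1 h2 h3 hwz
      have h4 : (w - z) ^ j ≠ 0 := pow_ne_zero _ (sub_ne_zero.mpr hwz)
      rw [h1, h2]
      exact ⟨mul_div_mul_left _ _ h4, mul_ne_zero h4 h3⟩
    have hz' : h z = a z / b z := by
      by_cases hψz : ψ z = 0
      · have h1 : Tendsto (fun w => φ w / ψ w) (𝓝[≠] z) (𝓝 (a z / b z)) := by
          have h2 : Tendsto (fun w => a w / b w) (𝓝[≠] z) (𝓝 (a z / b z)) :=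
            ((ha.div hb hb0).continuousAt.tendsto).mono_left nhdsWithin_le_nhds
          apply h2.congr'
          filter_upwards [mem_nhdsWithin_of_mem_nhds hpun, self_mem_nhdsWithin] with w h3 h4
          exact (h3 h4).1.symm
        simp only [hh, hψz, if_true]
        exact h1.limUnder_eq
      · have h1 : h z = φ z / ψ z := by simp only [hh, hψz, if_false]
        have h2 : ψ z = (z - z) ^ j * b z := hψb.self_of_nhds
        have h3 : φ z = (z - z) ^ j * a z := hφa.self_of_nhds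
        have hj0 : j = 0 := by
          by_contra hj0
          rw [sub_self, zero_pow hj0, zero_mul] at h2
          exact hψz h2
        rw [hj0] at h2 h3
        simp only [pow_zero, one_mul] at h2 h3
        rw [h1, h2, h3]
    filter_upwards [hpun] with w hw
    by_cases hwz : w = z
    · rw [hwz, hz']
    · obtain ⟨h1, h2⟩ := hw hwz
      rw [← h1]
      simp only [hh, h2, if_false]
  refine ⟨h, ?_, ?_⟩
  · intro z hz
    obtain ⟨a, b, j, ha, hb, hb0, h1, -, -⟩ := key z hz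
    have : AnalyticAt ℂ h z := (ha.div hb hb0).congr (by
      filter_upwards [h1] with w hw
      rw [hw]; rfl)
    exact this.differentiableAt.differentiableWithinAt
  · intro z hz
    obtain ⟨a, b, j, ha, hb, hb0, h1, h2, h3⟩ := key z hz
    rw [h1.self_of_nhds, h2.self_of_nhds, h3.self_of_nhds]
    field_simp

lemma order_ne_top {φ : ℂ → ℂ} (hφ : AnalyticOnNhd ℂ φ (ball 0 1))
    (hne : ∃ z ∈ ball (0 : ℂ) 1, φ z ≠ 0) : ∀ z ∈ ball (0 : ℂ) 1, analyticOrderAt φ z ≠ ⊤ := by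
  intro z hz htop
  rw [analyticOrderAt_eq_top] at htop
  obtain ⟨w, hw, hφw⟩ := hne
  exact hφw (hφ.eqOn_zero_of_preconnected_of_eventuallyEq_zero
    (convex_ball (0 : ℂ) 1).isPreconnected hz htop hw)

lemma finite_zeros {φ : ℂ → ℂ} (hφ : AnalyticOnNhd ℂ φ (ball 0 1))
    (hne : ∃ z ∈ ball (0 : ℂ) 1, φ z ≠ 0) {ρ : ℝ} (hρ : ρ < 1) :
    {z | z ∈ closedBall (0 : ℂ) ρ ∧ φ z = 0}.Finite := by
  by_contra hinf
  obtain ⟨x, hx, hacc⟩ := Set.Infinite.exists_accPt_of_subset_isCompact hinf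
    (isCompact_closedBall (0 : ℂ) ρ) (fun z hz => hz.1)
  rw [accPt_iff_frequently_nhdsNE] at hacc
  have hxb : x ∈ ball (0 : ℂ) 1 := closedBall_subset_ball hρ hx
  obtain ⟨w, hw, hφw⟩ := hne
  exact hφw (hφ.eqOn_zero_of_preconnected_of_frequently_eq_zero
    (convex_ball (0 : ℂ) 1).isPreconnected hxb (hacc.mono fun y hy => hy.2) hw)

lemma exists_poly {φ : ℂ → ℂ} (hφ : AnalyticOnNhd ℂ φ (ball 0 1))
    (hne : ∃ z ∈ ball (0 : ℂ) 1, φ z ≠ 0) {ρ : ℝ} (hρ : ρ < 1) :
    ∃ R : ℂ[X], R.Monic ∧ (∀ z, R.eval z = 0 → ‖z‖ < 1) ∧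
      (∀ z ∈ ball (0 : ℂ) 1, analyticOrderAt (fun w => R.eval w) z ≤ analyticOrderAt φ z) ∧
      (∀ z ∈ closedBall (0 : ℂ) ρ, analyticOrderAt φ z ≤ analyticOrderAt (fun w => R.eval w) z) ∧
      (∀ z, analyticOrderAt (fun w => R.eval w) z ≠ ⊤) := by
  classical
  set Z := (finite_zeros hφ hne hρ).toFinset with hZ
  have hZmem : ∀ c, c ∈ Z ↔ c ∈ closedBall (0 : ℂ) ρ ∧ φ c = 0 := by
    intro c
    rw [hZ, Set.Finite.mem_toFinset]
    rfl
  set R : ℂ[X] := ∏ c ∈ Z, (X - C c) ^ analyticOrderNatAt φ c with hR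
  have hRan : ∀ (Q : ℂ[X]) z, AnalyticAt ℂ (fun w => Q.eval w) z := fun Q z =>
    Q.differentiable.analyticAt z
  have hne0 : ∀ (S : Finset ℂ) z, z ∉ S →
      (∏ c ∈ S, (X - C c) ^ analyticOrderNatAt φ c : ℂ[X]).eval z ≠ 0 := by
    intro S z hz
    rw [eval_prod, Finset.prod_ne_zero_iff]
    intro c hc
    rw [eval_pow, eval_sub, eval_X, eval_C]
    apply pow_ne_zero
    rw [sub_ne_zero]
    rintro rfl
    exact hz hc
  have hord : ∀ z ∈ Z, analyticOrderAt (fun w => R.eval w) z = analyticOrderNatAt φ z := by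
    intro z hz
    rw [(hRan R z).analyticOrderAt_eq_natCast]
    refine ⟨fun w => (∏ c ∈ Z.erase z, (X - C c) ^ analyticOrderNatAt φ c : ℂ[X]).eval w,
      hRan _ z, hne0 _ z (Finset.notMem_erase z Z), ?_⟩
    refine Eventually.of_forall fun w => ?_
    rw [hR, ← Finset.mul_prod_erase Z _ hz, eval_mul, eval_pow, eval_sub, eval_X, eval_C,
      smul_eq_mul]
  have hord0 : ∀ z, z ∉ Z → analyticOrderAt (fun w => R.eval w) z = 0 := by
    intro z hz
    rw [(hRan R z).analyticOrderAt_eq_zero]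
    exact hne0 Z z hz
  refine ⟨R, ?_, ?_, ?_, ?_, ?_⟩
  · apply monic_prod_of_monic
    intro c _
    exact (monic_X_sub_C c).pow _
  · intro z hz
    have : z ∈ Z := by
      by_contra hzZ
      exact hne0 Z z hzZ hz
    have := ((hZmem z).mp this).1
    exact (mem_closedBall_zero_iff.mp this).trans_lt hρ
  · intro z hz
    by_cases hzZ : z ∈ Z
    · rw [hord z hzZ, Nat.cast_analyticOrderNatAt (order_ne_top hφ hne z hz)]
    · rw [hord0 z hzZ]
      exact zero_le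
  · intro z hz
    have hzb : z ∈ ball (0 : ℂ) 1 := closedBall_subset_ball hρ hz
    by_cases hzZ : z ∈ Z
    · rw [hord z hzZ, Nat.cast_analyticOrderNatAt (order_ne_top hφ hne z hzb)]
    · have : φ z ≠ 0 := fun h0 => hzZ ((hZmem z).mpr ⟨hz, h0⟩)
      rw [(hφ z hzb).analyticOrderAt_eq_zero.mpr this]
      exact zero_le
  · intro z
    by_cases hzZ : z ∈ Z
    · rw [hord z hzZ]
      exact ENat.natCast_ne_top _
    · rw [hord0 z hzZ]
      exact ENat.zero_ne_top

lemma iteratedDeriv_pow_mul (N : ℕ) : ∀ {u : ℂ → ℂ}, AnalyticAt ℂ u 0 →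
    iteratedDeriv N (fun z => z ^ N * u z) 0 = N.factorial * u 0 := by
  induction N with
  | zero =>
    intro u _
    simp
  | succ N ih =>
    intro u hu
    rw [iteratedDeriv_succ']
    have h1 : deriv (fun z => z ^ (N + 1) * u z) =ᶠ[𝓝 0]
        fun z => z ^ N * (((N : ℂ) + 1) * u z + z * deriv u z) := by
      filter_upwards [hu.eventually_analyticAt] with z hz
      have h2 := (hasDerivAt_pow (N + 1) z).mul hz.differentiableAt.hasDerivAt
      have h3 : deriv (fun z => z ^ (N + 1) * u z) z = _ := h2.deriv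
      rw [h3]
      simp
      ring
    rw [h1.iteratedDeriv_eq, ih (u := fun z => ((N : ℂ) + 1) * u z + z * deriv u z) ?_]
    · rw [Nat.factorial_succ]
      push_cast
      ring
    · have := hu.deriv
      fun_prop

lemma lead {g u : ℂ → ℂ} (N : ℕ) (hu : AnalyticAt ℂ u 0)
    (hg : ∀ᶠ z in 𝓝 0, deriv g z = z ^ N * u z) :
    iteratedDeriv (N + 1) g 0 = N.factorial * u 0 := by
  rw [iteratedDeriv_succ', Filter.EventuallyEq.iteratedDeriv_eq N
    (show deriv g =ᶠ[𝓝 0] fun z => z ^ N * u z from hg), iteratedDeriv_pow_mul N hu]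

lemma tendsto_iteratedDeriv {F : ℕ → ℂ → ℂ} {Φ : ℂ → ℂ} {l : Filter ℕ} [l.NeBot] {W : Set ℂ}
    (hW : IsOpen W) (hF : ∀ n, DifferentiableOn ℂ (F n) W)
    (h : TendstoLocallyUniformlyOn F Φ l W) (k : ℕ) :
    TendstoLocallyUniformlyOn (fun n => iteratedDeriv k (F n)) (iteratedDeriv k Φ) l W ∧
      ∀ n, DifferentiableOn ℂ (iteratedDeriv k (F n)) W := by
  induction k with
  | zero =>
    simp only [iteratedDeriv_zero]
    exact ⟨h, hF⟩
  | succ k ih =>
    obtain ⟨h1, h2⟩ := ih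
    constructor
    · have := h1.deriv (Eventually.of_forall h2) hW
      rw [iteratedDeriv_succ]
      have e : (fun n => iteratedDeriv (k + 1) (F n)) = deriv ∘ fun n => iteratedDeriv k (F n) := by
        funext n
        rw [iteratedDeriv_succ]; rfl
      rw [e]
      exact this
    · intro n
      rw [iteratedDeriv_succ]
      exact (h2 n).deriv hW

end Pool.Agent.H824MB
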