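import Pool.Agent.Helper824_mb.Ker

/-!
Finite Blaschke products with prescribed critical points.
-/

namespace Pool.Agent.H824MB

open Topology Filter Set Complex Polynomial Metric

variable {m n : ℕ}

/-- the reversed coefficient vector -/
noncomputable def st (p : Fin (m + 1) → ℂ) : Fin (m + 1) → ℂ := fun k => starRingEnd ℂ (p (Fin.rev k))

lemma PP_st (p : Fin (m + 1) → ℂ) : PP (st p) = SS p := by
  rw [PP, SS, ← Equiv.sum_comp Fin.revPerm]
  apply Finset.sum_congr rfl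
  intro k _
  simp only [Fin.revPerm_apply, st, Fin.rev_rev, Fin.val_rev]
  congr 2
  omega

lemma SS_st (p : Fin (m + 1) → ℂ) : SS (st p) = PP p := by
  rw [PP, SS, ← Equiv.sum_comp Fin.revPerm]
  apply Finset.sum_congr rfl
  intro k _
  simp only [Fin.revPerm_apply, st, Fin.rev_rev, Fin.val_rev, Complex.conj_conj]
  congr 2
  have := k.2
  omega

lemma PP_lin (a b : ℂ) (p q : Fin (m + 1) → ℂ) :
    PP (a • p + b • q) = C a * PP p + C b * PP q := by
  simp only [PP, Finset.mul_sum, ← Finset.sum_add_distrib]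
  apply Finset.sum_congr rfl
  intro k _
  simp
  ring

lemma SS_lin (a b : ℂ) (p q : Fin (m + 1) → ℂ) :
    SS (a • p + b • q) = C (starRingEnd ℂ a) * SS p + C (starRingEnd ℂ b) * SS q := by
  simp only [SS, Finset.mul_sum, ← Finset.sum_add_distrib]
  apply Finset.sum_congr rfl
  intro k _
  simp
  ring

lemma PP_coeff (p : Fin (m + 1) → ℂ) (k : Fin (m + 1)) : (PP p).coeff k = p k := by
  rw [PP, Polynomial.finsetSum_coeff, Finset.sum_eq_single k]
  · simp
  · intro b _ hb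
    rw [coeff_C_mul_X_pow, if_neg]
    intro h
    exact hb (Fin.ext h.symm)
  · intro h
    exact absurd (Finset.mem_univ k) h

lemma PP_inj {p q : Fin (m + 1) → ℂ} (h : PP p = PP q) : p = q := by
  funext k
  rw [← PP_coeff p k, ← PP_coeff q k, h]

lemma TT_of_Wb (p : Fin (m + 1) → ℂ) {ζ : ℂ} (hζ : ‖ζ‖ = 1) :
    ζ * (Wb p p).eval ζ = ζ ^ m * (TT p ζ : ℂ) := by
  have h := Zb_circle p p hζ
  rw [← X_mul_Wb, eval_mul, eval_X, Tb_self] at h
  exact h

lemma TT_congr {p q : Fin (m + 1) → ℂ} (h : Wb p p = Wb q q) {ζ : ℂ} (hζ : ‖ζ‖ = 1) :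
    TT p ζ = TT q ζ := by
  have h1 := TT_of_Wb p hζ
  have h2 := TT_of_Wb q hζ
  rw [h, h2] at h1
  have h0 : ζ ^ m ≠ 0 := by
    apply pow_ne_zero
    rintro rfl
    simp at hζ
  have := mul_left_cancel₀ h0 h1
  exact_mod_cast this.symm

/-- normalisation `B(0) = 0` -/
lemma normalize {p : Fin (m + 1) → ℂ} (hp : Good p) (hT : Pos p) :
    ∃ p' : Fin (m + 1) → ℂ, Good p' ∧ Wb p' p' = Wb p p ∧ p' 0 = 0 := by
  set b := BB p 0 with hb
  have hb1 : ‖b‖ < 1 := BB_lt hp hT (by simp)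
  have hpos : 0 < 1 - ‖b‖ ^ 2 := by
    have := norm_nonneg b
    nlinarith
  set u : ℝ := (√(1 - ‖b‖ ^ 2))⁻¹ with hu
  have hu0 : 0 < u := by positivity
  have hu2 : u ^ 2 * (1 - ‖b‖ ^ 2) = 1 := by
    rw [hu, inv_pow, Real.sq_sqrt hpos.le, inv_mul_cancel₀ hpos.ne']
  set p' : Fin (m + 1) → ℂ := (u : ℂ) • p + (-(u : ℂ) * b) • st p with hp'
  have hPP : PP p' = C (u : ℂ) * PP p + C (-(u : ℂ) * b) * SS p := by
    rw [hp', PP_lin, PP_st]
  have hSS : SS p' = C (u : ℂ) * SS p + C (-(u : ℂ) * starRingEnd ℂ b) * PP p := by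
    rw [hp', SS_lin, SS_st]
    simp
  refine ⟨p', ?_, ?_, ?_⟩
  · intro z hz h0
    have hS := hp z hz
    rw [hSS] at h0
    simp only [eval_add, eval_mul, eval_C] at h0
    have h1 : (SS p).eval z = starRingEnd ℂ b * (PP p).eval z := by
      have hu0' : (u : ℂ) ≠ 0 := by exact_mod_cast hu0.ne'
      have : (u : ℂ) * ((SS p).eval z - starRingEnd ℂ b * (PP p).eval z) = 0 := by
        linear_combination h0
      rcases mul_eq_zero.mp this with h | h
      · exact absurd h hu0'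
      · exact sub_eq_zero.mp h
    have h2 := BB_le hp hz
    rw [BB, qu, norm_div, div_le_one (norm_pos_iff.mpr hS)] at h2
    have h3 := congrArg norm h1
    rw [norm_mul, RCLike.norm_conj] at h3
    have h4 : 0 < ‖(SS p).eval z‖ := norm_pos_iff.mpr hS
    have h5 : ‖b‖ * ‖(PP p).eval z‖ ≤ ‖b‖ * ‖(SS p).eval z‖ :=
      mul_le_mul_of_nonneg_left h2 (norm_nonneg b)
    nlinarith
  · rw [Wb, hPP, hSS, Wb]
    simp only [derivative_add, derivative_C_mul]
    have hc : (C (u : ℂ) * C (u : ℂ) - C (-(u : ℂ) * b) * C (-(u : ℂ) * starRingEnd ℂ b) : ℂ[X]) = 1 := by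
      rw [← C_mul, ← C_mul, ← C_sub, ← C_1]
      congr 1
      have h1 : b * starRingEnd ℂ b = ((‖b‖ ^ 2 : ℝ) : ℂ) := by
        rw [Complex.mul_conj, Complex.normSq_eq_norm_sq]
      have h2 : ((u ^ 2 * (1 - ‖b‖ ^ 2) : ℝ) : ℂ) = 1 := by rw [hu2]; simp
      push_cast at h2 h1
      linear_combination h2 - (u : ℂ) ^ 2 * h1
    linear_combination (derivative (PP p) * SS p - PP p * derivative (SS p)) * hc
  · have h1 : p' 0 = (PP p').eval 0 := by
      rw [eval_PP, Finset.sum_eq_single 0]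
      · simp
      · intro k _ hk
        have : (k : ℕ) ≠ 0 := by
          intro h
          exact hk (Fin.ext h)
        rw [zero_pow this, mul_zero]
      · intro h
        exact absurd (Finset.mem_univ _) h
    rw [h1, hPP]
    simp only [eval_add, eval_mul, eval_C]
    have h2 : b * (SS p).eval 0 = (PP p).eval 0 := by
      rw [hb, BB, qu, div_mul_cancel₀ _ (hp 0 (by simp))]
    linear_combination (-(u : ℂ)) * h2

/-- drop the constant coefficient -/
def dr (p : Fin (m + 1 + 1) → ℂ) : Fin (m + 1) → ℂ := fun k => p k.succ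

lemma eval_PP_dr {p : Fin (m + 1 + 1) → ℂ} (h0 : p 0 = 0) (z : ℂ) :
    (PP p).eval z = z * (PP (dr p)).eval z := by
  rw [eval_PP, eval_PP, Fin.sum_univ_succ, h0, Finset.mul_sum]
  simp only [zero_mul, zero_add, dr, Fin.val_succ]
  apply Finset.sum_congr rfl
  intro k _
  ring

lemma eval_DP_dr {p : Fin (m + 1 + 1) → ℂ} (h0 : p 0 = 0) (z : ℂ) :
    (DP p).eval z = z * ((PP (dr p)).eval z + (DP (dr p)).eval z) := by
  rw [eval_PP, eval_DP, eval_DP, Fin.sum_univ_succ, h0, ← Finset.sum_add_distrib, Finset.mul_sum]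
  simp only [mul_zero, zero_mul, zero_add, dr, Fin.val_succ]
  apply Finset.sum_congr rfl
  intro k _
  push_cast
  ring

lemma eval_SS_dr {p : Fin (m + 1 + 1) → ℂ} (h0 : p 0 = 0) (z : ℂ) :
    (SS p).eval z = (SS (dr p)).eval z := by
  rw [eval_SS, eval_SS, Fin.sum_univ_succ, h0]
  simp only [map_zero, zero_mul, zero_add, dr, Fin.val_succ]
  apply Finset.sum_congr rfl
  intro k _
  congr 2
  omega

lemma TT_nonneg {p : Fin (m + 1) → ℂ} (hp : Good p) {ζ : ℂ} (hζ : ‖ζ‖ = 1) : 0 ≤ TT p ζ := by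
  by_contra hneg
  push Not at hneg
  have h1 := EE_radial p ζ (s := 1) one_pos
  have h2 : ee p (((1 : ℝ) : ℂ) * ζ) / 1 = -(2 * TT p ζ) := by
    rw [Complex.ofReal_one, one_mul, div_one, ee_circle p hζ]
  rw [h2] at h1
  have h3 : 0 < -(2 * TT p ζ) := by linarith
  have h4 : ∀ᶠ s : ℝ in 𝓝[<] (1 : ℝ), EE p ((s : ℂ) * ζ) < EE p (((1 : ℝ) : ℂ) * ζ) := by
    have hs := (hasDerivWithinAt_iff_tendsto_slope' (s := Iio (1 : ℝ)) (by simp)).mp
      h1.hasDerivWithinAt
    filter_upwards [hs.eventually (lt_mem_nhds h3), self_mem_nhdsWithin] with s h4 h5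
    have h6 : s - 1 < 0 := by
      have : s < 1 := h5
      linarith
    rw [slope_def_field] at h4
    have h7 : EE p (s * ζ) - EE p (((1 : ℝ) : ℂ) * ζ) < 0 := by
      by_contra hc
      push Not at hc
      have := div_nonpos_of_nonneg_of_nonpos hc h6.le
      linarith
    linarith
  have h5 : ∀ᶠ s in 𝓝[<] (1 : ℝ), (0 : ℝ) < s := by
    apply mem_nhdsWithin_of_mem_nhds
    exact Ioi_mem_nhds one_pos
  obtain ⟨s, ⟨hs1, hs2⟩, hs3⟩ := ((h4.and h5).and self_mem_nhdsWithin).exists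
  rw [Complex.ofReal_one, one_mul, EE_circle p hζ] at hs1
  have hn : ‖(s : ℂ) * ζ‖ ≤ 1 := by
    rw [norm_mul, hζ, mul_one, Complex.norm_real, Real.norm_eq_abs, abs_of_pos hs2]
    exact le_of_lt hs3
  have hS := hp _ hn
  have h6 := BB_le hp hn
  rw [BB, qu, norm_div, div_le_one (norm_pos_iff.mpr hS)] at h6
  rw [EE] at hs1
  have h7 := norm_nonneg ((PP p).eval (s * ζ))
  nlinarith

lemma PP_le_TT {p : Fin (m + 1 + 1) → ℂ} (hp : Good p) (h0 : p 0 = 0) {ζ : ℂ} (hζ : ‖ζ‖ = 1) :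
    ‖(PP p).eval ζ‖ ^ 2 ≤ TT p ζ := by
  have hg : Good (dr p) := by
    intro z hz
    rw [← eval_SS_dr h0]
    exact hp z hz
  have h1 := TT_nonneg hg hζ
  have h2 : TT p ζ = ‖(PP p).eval ζ‖ ^ 2 + TT (dr p) ζ := by
    rw [TT, TT, Tb, Tb, eval_PP_dr h0, eval_DP_dr h0, norm_mul, hζ, one_mul, norm_sq_eq]
    have hζ2 : ζ * starRingEnd ℂ ζ = 1 := by
      rw [Complex.mul_conj, Complex.normSq_eq_norm_sq, hζ]
      simp
    rw [← Complex.add_re]
    congr 1
    simp only [map_mul, map_add]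
    push_cast
    linear_combination ((PP (dr p)).eval ζ * starRingEnd ℂ ((PP (dr p)).eval ζ) +
      (DP (dr p)).eval ζ * starRingEnd ℂ ((PP (dr p)).eval ζ) +
      (PP (dr p)).eval ζ * (starRingEnd ℂ ((PP (dr p)).eval ζ) + starRingEnd ℂ ((DP (dr p)).eval ζ)) -
      (m + 1) * (PP (dr p)).eval ζ * starRingEnd ℂ ((PP (dr p)).eval ζ)) * hζ2
  linarith

end Pool.Agent.H824MB
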