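import Pool.Agent.Helper824_mb.Hei

/-!
Finite Blaschke products with prescribed critical points: local surjectivity.
-/

namespace Pool.Agent.H824MB

open Topology Filter Set Complex Polynomial Metric

variable {m n : ℕ}

/-- the values at the sample points -/
noncomputable def FF (p : Fin (m + 1) → ℂ) : Fin (2 * m - 1) → ℝ := fun j => TT p (pt m j)

lemma PP_add (p q : Fin (m + 1) → ℂ) : PP (p + q) = PP p + PP q := by
  have := PP_lin 1 1 p q
  simpa using this

lemma SS_add (p q : Fin (m + 1) → ℂ) : SS (p + q) = SS p + SS q := by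
  have := SS_lin 1 1 p q
  simpa using this

lemma contDiff_evalPP (z : ℂ) : ContDiff ℝ 1 (fun p : Fin (m + 1) → ℂ => (PP p).eval z) := by
  simp only [eval_PP]
  apply ContDiff.sum
  intro k _
  exact (contDiff_apply ℝ ℂ k).mul contDiff_const

lemma contDiff_evalDP (z : ℂ) : ContDiff ℝ 1 (fun p : Fin (m + 1) → ℂ => (DP p).eval z) := by
  simp only [eval_DP]
  apply ContDiff.sum
  intro k _
  exact (contDiff_const.mul (contDiff_apply ℝ ℂ k)).mul contDiff_const

lemma contDiff_cj {E : Type*} [NormedAddCommGroup E] [NormedSpace ℝ E] {f : E → ℂ}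
    (hf : ContDiff ℝ 1 f) : ContDiff ℝ 1 (fun x => starRingEnd ℂ (f x)) :=
  Complex.conjCLE.toContinuousLinearMap.contDiff.comp hf

lemma contDiff_TT (z : ℂ) : ContDiff ℝ 1 (fun p : Fin (m + 1) → ℂ => TT p z) := by
  simp only [TT, Tb]
  exact Complex.reCLM.contDiff.comp ((((contDiff_evalDP z).mul (contDiff_cj (contDiff_evalPP z))).add
    ((contDiff_evalPP z).mul (contDiff_cj (contDiff_evalDP z)))).sub
    ((contDiff_const.mul (contDiff_evalPP z)).mul (contDiff_cj (contDiff_evalPP z))))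

lemma contDiff_FF : ContDiff ℝ 1 (FF (m := m)) := by
  rw [contDiff_pi]
  intro j
  exact contDiff_TT _

lemma TT_line (p q : Fin (m + 1) → ℂ) (z : ℂ) (t : ℝ) :
    TT (p + (t : ℂ) • q) z = TT p z + t * (2 * (Tb p q z).re) + t ^ 2 * TT q z := by
  have h1 : ∀ z, (PP (p + (t : ℂ) • q)).eval z = (PP p).eval z + t * (PP q).eval z := by
    intro z
    have := PP_lin 1 (t : ℂ) p q
    rw [one_smul] at this
    rw [this]; simp
  have h2 : ∀ z, (DP (p + (t : ℂ) • q)).eval z = (DP p).eval z + t * (DP q).eval z := by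
    intro z
    rw [eval_DP, eval_DP, eval_DP, Finset.mul_sum, ← Finset.sum_add_distrib]
    apply Finset.sum_congr rfl
    intro k _
    simp only [Pi.add_apply, Pi.smul_apply, smul_eq_mul]
    ring
  have h3 : (Tb q p z).re = (Tb p q z).re := by
    rw [← Tb_conj, Complex.conj_re]
  have h4 : Tb (p + (t : ℂ) • q) (p + (t : ℂ) • q) z =
      Tb p p z + t * Tb p q z + t * Tb q p z + (t : ℂ) ^ 2 * Tb q q z := by
    simp only [Tb, h1, h2, map_add, map_mul, Complex.conj_ofReal]
    ring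
  rw [TT, h4, TT, TT]
  have h5 : ((t : ℂ) ^ 2 * Tb q q z).re = t ^ 2 * (Tb q q z).re := by
    have : ((t : ℂ) ^ 2) = ((t ^ 2 : ℝ) : ℂ) := by push_cast; rfl
    rw [this, Complex.re_ofReal_mul]
  rw [Complex.add_re, Complex.add_re, Complex.add_re, h5, Complex.re_ofReal_mul,
    Complex.re_ofReal_mul, h3]
  ring

lemma fderiv_FF (p q : Fin (m + 1) → ℂ) (j : Fin (2 * m - 1)) :
    fderiv ℝ (FF (m := m)) p q j = 2 * (Tb p q (pt m j)).re := by
  have hd : HasFDerivAt (FF (m := m)) (fderiv ℝ (FF (m := m)) p) p :=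
    ((contDiff_FF.differentiable one_ne_zero) p).hasFDerivAt
  have hl : HasDerivAt (fun t : ℝ => p + (t : ℂ) • q) q 0 := by
    have h1 : HasDerivAt (fun t : ℝ => (t : ℂ)) 1 0 := Complex.ofRealCLM.hasDerivAt
    simpa using (h1.smul_const q).const_add p
  have hd' : HasFDerivAt (FF (m := m)) (fderiv ℝ (FF (m := m)) p) (p + ((0 : ℝ) : ℂ) • q) := by
    simpa using hd
  have h2 := hd'.comp_hasDerivAt (0 : ℝ) hl
  have h3 := (hasDerivAt_pi.mp h2) j
  have h4 : HasDerivAt (fun t : ℝ => TT p (pt m j) + t * (2 * (Tb p q (pt m j)).re) +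
      t ^ 2 * TT q (pt m j)) (2 * (Tb p q (pt m j)).re) 0 := by
    have e1 := ((hasDerivAt_id (0 : ℝ)).mul_const (2 * (Tb p q (pt m j)).re)).const_add
      (TT p (pt m j))
    have e2 := ((hasDerivAt_pow 2 (0 : ℝ)).mul_const (TT q (pt m j)))
    have e3 := e1.add e2
    refine e3.congr_deriv ?_
    simp
  have h5 : (fun t : ℝ => (FF (m := m) ∘ fun t : ℝ => p + (t : ℂ) • q) t j) = fun t : ℝ =>
      TT p (pt m j) + t * (2 * (Tb p q (pt m j)).re) + t ^ 2 * TT q (pt m j) := by
    funext t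
    exact TT_line p q (pt m j) t
  rw [h5] at h3
  exact h3.unique h4

/-- the three dimensional space of trivial solutions -/
noncomputable def triv (p : Fin (m + 1) → ℂ) : (ℝ × ℂ) →ₗ[ℝ] (Fin (m + 1) → ℂ) where
  toFun x := ((x.1 : ℂ) * I) • p + x.2 • st p
  map_add' x y := by
    simp only [Prod.fst_add, Prod.snd_add]
    push_cast
    module
  map_smul' c x := by
    simp only [Prod.smul_fst, Prod.smul_snd, RingHom.id_apply, smul_eq_mul, Complex.real_smul]
    funext k
    simp
    ring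

lemma ker_le (hm : 1 ≤ m) {p : Fin (m + 1) → ℂ} (hp : Good p) (hT : Pos p) :
    LinearMap.ker (fderiv ℝ (FF (m := m)) p).toLinearMap ≤ LinearMap.range (triv p) := by
  intro q hq
  rw [LinearMap.mem_ker] at hq
  have hq' : ∀ j, (Tb p q (pt m j)).re = 0 := by
    intro j
    have h1 := fderiv_FF p q j
    have h2 : fderiv ℝ (FF (m := m)) p q = 0 := hq
    rw [h2] at h1
    simp at h1
    linarith
  have hZ : Zb p q + Zb q p = 0 := by
    apply vanish hm
    · exact (natDegree_add_le _ _).trans_lt (max_lt (Zb_natDegree hm p q) (Zb_natDegree hm q p))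
    · rw [eval_add, Zb_zero, Zb_zero, add_zero]
    · intro j
      rw [eval_add, Zb_circle p q (pt_norm j), Zb_circle q p (pt_norm j), ← Tb_conj p q]
      have : Tb p q (pt m j) + starRingEnd ℂ (Tb p q (pt m j)) = 0 := by
        rw [Complex.add_conj, hq' j]
        simp
      rw [← mul_add, this, mul_zero]
  have hW : Wb p q + Wb q p = 0 := by
    have h1 : X * (Wb p q + Wb q p) = 0 := by
      rw [mul_add, X_mul_Wb, X_mul_Wb, hZ]
    rcases mul_eq_zero.mp h1 with h2 | h2
    · exact absurd h2 X_ne_zero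
    · exact h2
  obtain ⟨β, α, h⟩ := kernel hp hT hW
  refine ⟨(β, α), ?_⟩
  apply PP_inj
  rw [h]
  show PP (((β : ℂ) * I) • p + α • st p) = _
  rw [PP_lin, PP_st]

lemma surj (hm : 1 ≤ m) {p : Fin (m + 1) → ℂ} (hp : Good p) (hT : Pos p) :
    (fderiv ℝ (FF (m := m)) p).range = ⊤ := by
  apply Submodule.eq_top_of_finrank_eq
  have h1 := (fderiv ℝ (FF (m := m)) p).toLinearMap.finrank_range_add_finrank_ker
  have h2 : Module.finrank ℝ (Fin (m + 1) → ℂ) = 2 * (m + 1) := by
    rw [Module.finrank_pi_fintype]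
    simp [Complex.finrank_real_complex]
    ring
  have h3 : Module.finrank ℝ (Fin (2 * m - 1) → ℝ) = 2 * m - 1 := by simp
  have h4 : Module.finrank ℝ (LinearMap.ker (fderiv ℝ (FF (m := m)) p).toLinearMap) ≤ 3 := by
    calc Module.finrank ℝ (LinearMap.ker (fderiv ℝ (FF (m := m)) p).toLinearMap)
        ≤ Module.finrank ℝ (LinearMap.range (triv p)) := Submodule.finrank_mono (ker_le hm hp hT)
      _ ≤ Module.finrank ℝ (ℝ × ℂ) := LinearMap.finrank_range_le _
      _ = 3 := by rw [Module.finrank_prod]; simp [Complex.finrank_real_complex]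
  have h5 : Module.finrank ℝ (LinearMap.range (fderiv ℝ (FF (m := m)) p).toLinearMap) ≤
      Module.finrank ℝ (Fin (2 * m - 1) → ℝ) := Submodule.finrank_le _
  show Module.finrank ℝ (LinearMap.range (fderiv ℝ (FF (m := m)) p).toLinearMap) = _
  rw [h2] at h1
  rw [h3] at h5 ⊢
  omega

lemma map_nhds (hm : 1 ≤ m) {p : Fin (m + 1) → ℂ} (hp : Good p) (hT : Pos p) :
    Filter.map (FF (m := m)) (𝓝 p) = 𝓝 (FF p) := by
  have h : HasStrictFDerivAt (FF (m := m)) (fderiv ℝ (FF (m := m)) p) p :=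
    contDiff_FF.contDiffAt.hasStrictFDerivAt one_ne_zero
  exact h.map_nhds_eq_of_surj (surj hm hp hT)

lemma continuous_SS : Continuous (fun x : (Fin (m + 1) → ℂ) × ℂ => (SS x.1).eval x.2) := by
  simp only [eval_SS]
  apply continuous_finsetSum
  intro k _
  exact (Complex.continuous_conj.comp ((continuous_apply k).comp continuous_fst)).mul
    (continuous_snd.pow _)

lemma good_open {p : Fin (m + 1) → ℂ} (hp : Good p) : ∀ᶠ q in 𝓝 p, Good q := by
  have hK : IsCompact (closedBall (0 : ℂ) 1) := isCompact_closedBall _ _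
  have h : ∀ z ∈ closedBall (0 : ℂ) 1, ∀ᶠ x : (Fin (m + 1) → ℂ) × ℂ in 𝓝 (p, z),
      (SS x.1).eval x.2 ≠ 0 := by
    intro z hz
    exact (continuous_SS.continuousAt).eventually_ne (hp z (mem_closedBall_zero_iff.mp hz))
  have h1 := hK.eventually_forall_of_forall_eventually
    (P := fun (q : Fin (m + 1) → ℂ) (z : ℂ) => (SS q).eval z ≠ 0) h
  filter_upwards [h1] with q hq z hz
  exact hq z (mem_closedBall_zero_iff.mpr hz)

end Pool.Agent.H824MB
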