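import Pool.Agent.Helper824_mb.Hei2

/-!
Finite Blaschke products with prescribed critical points: the continuity method.
-/

namespace Pool.Agent.H824MB

open Topology Filter Set Complex Polynomial Metric

variable {m n : ℕ}

lemma PP_natDegree (p : Fin (m + 1) → ℂ) : (PP p).natDegree ≤ m := by
  apply natDegree_sum_le_of_forall_le
  intro k _
  exact (natDegree_C_mul_X_pow_le _ _).trans (Nat.lt_succ_iff.mp k.2)

lemma SS_natDegree (p : Fin (m + 1) → ℂ) : (SS p).natDegree ≤ m := by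
  rw [← PP_st]
  exact PP_natDegree _

/-- evaluation at many points -/
noncomputable def evL (m : ℕ) : (Fin (m + 1) → ℂ) →ₗ[ℂ] (Fin (2 * (m + 2) - 1) → ℂ) where
  toFun p j := (PP p).eval (pt (m + 2) j)
  map_add' p q := by
    funext j
    simp [PP_add]
  map_smul' c p := by
    funext j
    have := PP_lin c 0 p 0
    rw [zero_smul, add_zero] at this
    rw [this]
    simp

lemma coeff_bound (m : ℕ) : ∃ K > 0, ∀ p : Fin (m + 1) → ℂ, ∀ M : ℝ, 0 ≤ M →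
    (∀ ζ, ‖ζ‖ = 1 → ‖(PP p).eval ζ‖ ≤ M) → ‖p‖ ≤ K * M := by
  have hker : LinearMap.ker (evL m) = ⊥ := by
    rw [LinearMap.ker_eq_bot']
    intro p hp
    have h0 : PP p = 0 := by
      apply Polynomial.eq_zero_of_natDegree_lt_card_of_eval_eq_zero _ (pt_inj (m := m + 2))
      · intro j
        exact congrFun hp j
      · rw [Fintype.card_fin]
        have := PP_natDegree p
        omega
    funext k
    rw [← PP_coeff p k, h0]
    simp
  obtain ⟨K, hK, hA⟩ := (evL m).exists_antilipschitzWith hker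
  refine ⟨K, by exact_mod_cast hK, fun p M hM h => ?_⟩
  have h1 := hA.le_mul_dist p 0
  rw [map_zero, dist_zero_right, dist_zero_right] at h1
  refine h1.trans (mul_le_mul_of_nonneg_left ?_ (by positivity))
  rw [pi_norm_le_iff_of_nonneg hM]
  intro j
  exact h _ (pt_norm j)

lemma DP_bound (p : Fin (m + 1) → ℂ) {ζ : ℂ} (hζ : ‖ζ‖ = 1) :
    ‖(DP p).eval ζ‖ ≤ (m + 1) * (m * ‖p‖) := by
  rw [eval_DP]
  refine (norm_sum_le _ _).trans ?_
  have : ∀ k ∈ (Finset.univ : Finset (Fin (m + 1))), ‖((k : ℕ) : ℂ) * p k * ζ ^ (k : ℕ)‖ ≤ m * ‖p‖ := by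
    intro k _
    rw [norm_mul, norm_mul, norm_pow, hζ, one_pow, mul_one, Complex.norm_natCast]
    have h1 : ((k : ℕ) : ℝ) ≤ m := by exact_mod_cast (Nat.lt_succ_iff.mp k.2)
    exact mul_le_mul h1 (norm_le_pi_norm p k) (norm_nonneg _) (by positivity)
  refine (Finset.sum_le_card_nsmul _ _ _ this).trans ?_
  simp

lemma TT_le (p : Fin (m + 1) → ℂ) (ζ : ℂ) :
    TT p ζ ≤ 2 * ‖(DP p).eval ζ‖ * ‖(PP p).eval ζ‖ := by
  rw [TT, Tb, Complex.sub_re, Complex.add_re]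
  have h1 : ((DP p).eval ζ * starRingEnd ℂ ((PP p).eval ζ)).re ≤ ‖(DP p).eval ζ‖ * ‖(PP p).eval ζ‖ := by
    refine (Complex.re_le_norm _).trans ?_
    rw [norm_mul, RCLike.norm_conj]
  have h2 : ((PP p).eval ζ * starRingEnd ℂ ((DP p).eval ζ)).re ≤ ‖(PP p).eval ζ‖ * ‖(DP p).eval ζ‖ := by
    refine (Complex.re_le_norm _).trans ?_
    rw [norm_mul, RCLike.norm_conj]
  have h3 : 0 ≤ ((m : ℂ) * (PP p).eval ζ * starRingEnd ℂ ((PP p).eval ζ)).re := by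
    rw [mul_assoc, Complex.mul_conj]
    have : ((m : ℂ) * (Complex.normSq ((PP p).eval ζ) : ℂ)) =
        ((m * Complex.normSq ((PP p).eval ζ) : ℝ) : ℂ) := by push_cast; rfl
    rw [this, Complex.ofReal_re]
    have := Complex.normSq_nonneg ((PP p).eval ζ)
    positivity
  linarith

lemma apriori (m : ℕ) {τ M : ℝ} (hτ : 0 < τ) (hM : 0 ≤ M) : ∃ K c : ℝ, 0 < c ∧
    ∀ p : Fin (m + 1 + 1) → ℂ, Good p → p 0 = 0 →
      (∀ ζ, ‖ζ‖ = 1 → τ ≤ TT p ζ ∧ TT p ζ ≤ M) →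
      ‖p‖ ≤ K ∧ ∀ z, ‖z‖ ≤ 1 → c ≤ ‖(SS p).eval z‖ := by
  obtain ⟨K₀, hK₀, hK⟩ := coeff_bound (m + 1)
  set K := K₀ * √M with hKdef
  have hKn : 0 ≤ K := by positivity
  set D : ℝ := 2 * (((m + 1 : ℕ) + 1 : ℝ) * ((m + 1 : ℕ) * K)) + 1 with hD
  have hDpos : 0 < D := by positivity
  refine ⟨K, τ / D, by positivity, fun p hp h0 hT => ?_⟩
  have hpK : ‖p‖ ≤ K := by
    apply hK p (√M) (by positivity)
    intro ζ hζ
    apply Real.le_sqrt_of_sq_le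
    exact (PP_le_TT hp h0 hζ).trans (hT ζ hζ).2
  refine ⟨hpK, ?_⟩
  have hcirc : ∀ ζ, ‖ζ‖ = 1 → τ / D ≤ ‖(SS p).eval ζ‖ := by
    intro ζ hζ
    rw [norm_circle p hζ, div_le_iff₀ hDpos]
    have h1 := (hT ζ hζ).1
    have h2 := TT_le p ζ
    have h3 := DP_bound p hζ
    have h4 : ‖(DP p).eval ζ‖ ≤ ((m + 1 : ℕ) + 1 : ℝ) * ((m + 1 : ℕ) * K) := by
      refine h3.trans ?_
      gcongr
    have h5 := norm_nonneg ((PP p).eval ζ)
    have h6 : 2 * ‖(DP p).eval ζ‖ * ‖(PP p).eval ζ‖ ≤ ‖(PP p).eval ζ‖ * D := by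
      rw [hD]
      nlinarith
    linarith
  intro z hz
  have hinv : ‖((SS p).eval z)⁻¹‖ ≤ (τ / D)⁻¹ := by
    have hd : DiffContOnCl ℂ (fun w => ((SS p).eval w)⁻¹) (ball 0 1) := by
      apply DifferentiableOn.diffContOnCl
      intro w hw
      rw [closure_ball (0 : ℂ) one_ne_zero, mem_closedBall_zero_iff] at hw
      exact ((SS p).differentiable w).inv (hp w hw) |>.differentiableWithinAt
    apply Complex.norm_le_of_forall_mem_frontier_norm_le isBounded_ball hd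
    · intro w hw
      rw [frontier_ball (0 : ℂ) one_ne_zero, mem_sphere_zero_iff_norm] at hw
      rw [norm_inv]
      exact inv_anti₀ (by positivity) (hcirc w hw)
    · rw [closure_ball (0 : ℂ) one_ne_zero, mem_closedBall_zero_iff]
      exact hz
  rw [norm_inv] at hinv
  exact (inv_le_inv₀ (norm_pos_iff.mpr (hp z hz)) (by positivity)).mp hinv

/-- the path of trigonometric polynomials -/
noncomputable def tt (r : Fin (n + 1) → ℂ) (s : ℝ) (ζ : ℂ) : ℝ :=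
  (1 - s) * (n + 1) + s * ‖(PP r).eval ζ‖ ^ 2

noncomputable def ZZ (r : Fin (n + 1) → ℂ) (s : ℝ) : ℂ[X] :=
  C (((1 - s) * (n + 1) : ℝ) : ℂ) * X ^ (n + 1) + C (s : ℂ) * (X * (PP r * SS r))

lemma ZZ_circle (r : Fin (n + 1) → ℂ) (s : ℝ) {ζ : ℂ} (hζ : ‖ζ‖ = 1) :
    (ZZ r s).eval ζ = ζ ^ (n + 1) * (tt r s ζ : ℂ) := by
  rw [ZZ, tt]
  simp only [eval_add, eval_mul, eval_C, eval_pow, eval_X]
  rw [SS_circle r hζ]
  have h1 : (PP r).eval ζ * starRingEnd ℂ ((PP r).eval ζ) = ((‖(PP r).eval ζ‖ ^ 2 : ℝ) : ℂ) := by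
    rw [Complex.mul_conj, Complex.normSq_eq_norm_sq]
  push_cast at h1 ⊢
  linear_combination (s : ℂ) * ζ ^ (n + 1) * h1

lemma ZZ_natDegree (r : Fin (n + 1) → ℂ) (s : ℝ) : (ZZ r s).natDegree < 2 * (n + 1) := by
  refine lt_of_le_of_lt (natDegree_add_le _ _) (max_lt ?_ ?_)
  · refine (natDegree_C_mul_X_pow_le _ _).trans_lt (by omega)
  · refine (natDegree_C_mul_le _ _).trans_lt ?_
    refine natDegree_mul_le.trans_lt ?_
    have h1 : (PP r * SS r).natDegree ≤ n + n :=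
      natDegree_mul_le.trans (add_le_add (PP_natDegree r) (SS_natDegree r))
    have h2 : (X : ℂ[X]).natDegree ≤ 1 := natDegree_X_le
    omega

lemma ZZ_zero (r : Fin (n + 1) → ℂ) (s : ℝ) : (ZZ r s).eval 0 = 0 := by
  simp [ZZ]

lemma eq_of_samples {r : Fin (n + 1) → ℂ} {s : ℝ} {p : Fin (n + 1 + 1) → ℂ}
    (h : ∀ j, TT p (pt (n + 1) j) = tt r s (pt (n + 1) j)) : Zb p p = ZZ r s := by
  rw [← sub_eq_zero]
  apply vanish (m := n + 1) (by omega)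
  · exact (natDegree_sub_le _ _).trans_lt (max_lt (Zb_natDegree (by omega) p p) (ZZ_natDegree r s))
  · rw [eval_sub, Zb_zero, ZZ_zero, sub_zero]
  · intro j
    rw [eval_sub, Zb_circle p p (pt_norm j), ZZ_circle r s (pt_norm j), Tb_self, h j, sub_self]

lemma TT_of_eq {r : Fin (n + 1) → ℂ} {s : ℝ} {p : Fin (n + 1 + 1) → ℂ}
    (h : Zb p p = ZZ r s) {ζ : ℂ} (hζ : ‖ζ‖ = 1) : TT p ζ = tt r s ζ := by
  have h1 := Zb_circle p p hζ
  rw [h, ZZ_circle r s hζ, Tb_self] at h1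
  have h0 : ζ ^ (n + 1) ≠ 0 := by
    apply pow_ne_zero
    rintro rfl
    simp at hζ
  have := mul_left_cancel₀ h0 h1
  exact_mod_cast this.symm

lemma tt_bounds {r : Fin (n + 1) → ℂ} (hr : ∀ ζ, ‖ζ‖ = 1 → (PP r).eval ζ ≠ 0) :
    ∃ τ M : ℝ, 0 < τ ∧ 0 ≤ M ∧ ∀ s ∈ Icc (0 : ℝ) 1, ∀ ζ, ‖ζ‖ = 1 →
      τ ≤ tt r s ζ ∧ tt r s ζ ≤ M := by
  have hs : IsCompact (sphere (0 : ℂ) 1) := isCompact_sphere _ _
  have hcont : Continuous (fun ζ => ‖(PP r).eval ζ‖ ^ 2) := ((PP r).continuous.norm).pow 2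
  obtain ⟨ζ0, hζ0, hmin⟩ := hs.exists_isMinOn ⟨1, by simp⟩ hcont.continuousOn
  obtain ⟨ζ1, hζ1, hmax⟩ := hs.exists_isMaxOn ⟨1, by simp⟩ hcont.continuousOn
  have h0 : 0 < ‖(PP r).eval ζ0‖ ^ 2 := by
    have := hr ζ0 (by simpa using hζ0)
    positivity
  refine ⟨min (n + 1) (‖(PP r).eval ζ0‖ ^ 2), max (n + 1) (‖(PP r).eval ζ1‖ ^ 2),
    lt_min (by positivity) h0, le_max_of_le_left (by positivity), fun s hs ζ hζ => ?_⟩
  have h1 : ‖(PP r).eval ζ0‖ ^ 2 ≤ ‖(PP r).eval ζ‖ ^ 2 := hmin (by simpa using hζ)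
  have h2 : ‖(PP r).eval ζ‖ ^ 2 ≤ ‖(PP r).eval ζ1‖ ^ 2 := hmax (by simpa using hζ)
  have e1 := min_le_left ((n : ℝ) + 1) (‖(PP r).eval ζ0‖ ^ 2)
  have e2 := min_le_right ((n : ℝ) + 1) (‖(PP r).eval ζ0‖ ^ 2)
  have e3 := le_max_left ((n : ℝ) + 1) (‖(PP r).eval ζ1‖ ^ 2)
  have e4 := le_max_right ((n : ℝ) + 1) (‖(PP r).eval ζ1‖ ^ 2)
  obtain ⟨hs0, hs1⟩ := hs
  rw [tt]
  constructor <;> nlinarith

/-- the set of parameters which are solvable -/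
def Sg (r : Fin (n + 1) → ℂ) : Set ℝ := {s | ∃ p : Fin (n + 1 + 1) → ℂ, Good p ∧ Zb p p = ZZ r s}

lemma Sg_zero (r : Fin (n + 1) → ℂ) : (0 : ℝ) ∈ Sg r := by
  set p : Fin (n + 1 + 1) → ℂ := fun k => if k = Fin.last (n + 1) then 1 else 0 with hp
  have hSS : SS p = 1 := by
    rw [SS, Finset.sum_eq_single (Fin.last (n + 1))]
    · simp [hp]
    · intro b _ hb
      simp [hp, hb]
    · intro h
      exact absurd (Finset.mem_univ _) h
  have hPP : PP p = X ^ (n + 1) := by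
    rw [PP, Finset.sum_eq_single (Fin.last (n + 1))]
    · simp [hp]
    · intro b _ hb
      simp [hp, hb]
    · intro h
      exact absurd (Finset.mem_univ _) h
  refine ⟨p, ?_, ?_⟩
  · intro z _
    rw [hSS]; simp
  · rw [← X_mul_Wb, Wb, hSS, hPP, ZZ]
    simp
    ring

lemma Sg_open (r : Fin (n + 1) → ℂ) (hr : ∀ ζ, ‖ζ‖ = 1 → (PP r).eval ζ ≠ 0) {s : ℝ}
    (hs : s ∈ Sg r) (hs01 : s ∈ Icc (0 : ℝ) 1) : Sg r ∈ 𝓝 s := by
  obtain ⟨τ, M, hτ, hM, hb⟩ := tt_bounds hr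
  obtain ⟨p, hp, hZ⟩ := hs
  have hT : Pos p := by
    intro ζ hζ
    rw [TT_of_eq hZ hζ]
    exact hτ.trans_le (hb s hs01 ζ hζ).1
  have hm := map_nhds (m := n + 1) (by omega) hp hT
  have hF : FF p = fun j => tt r s (pt (n + 1) j) := by
    funext j
    exact TT_of_eq hZ (pt_norm j)
  have h1 : FF '' {q : Fin (n + 1 + 1) → ℂ | Good q} ∈ 𝓝 (FF p) := by
    rw [← hm]
    exact image_mem_map (good_open hp)
  have hc : Continuous (fun (s : ℝ) (j : Fin (2 * (n + 1) - 1)) => tt r s (pt (n + 1) j)) := by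
    apply continuous_pi
    intro j
    simp only [tt]
    fun_prop
  have h2 : ∀ᶠ s' in 𝓝 s, (fun j => tt r s' (pt (n + 1) j)) ∈
      FF '' {q : Fin (n + 1 + 1) → ℂ | Good q} := by
    apply hc.continuousAt.eventually_mem
    rw [← hF]
    exact h1
  filter_upwards [h2] with s' hs'
  obtain ⟨q, hq, hq2⟩ := hs'
  exact ⟨q, hq, eq_of_samples fun j => congrFun hq2 j⟩

lemma Sg_closed (r : Fin (n + 1) → ℂ) (hr : ∀ ζ, ‖ζ‖ = 1 → (PP r).eval ζ ≠ 0) :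
    IsClosed (Sg r ∩ Icc (0 : ℝ) 1) := by
  obtain ⟨τ, M, hτ, hM, hb⟩ := tt_bounds hr
  obtain ⟨K, c, hc, hap⟩ := apriori n hτ hM
  set 𝒦 : Set (ℝ × (Fin (n + 1 + 1) → ℂ)) := {x | x.1 ∈ Icc (0 : ℝ) 1 ∧ ‖x.2‖ ≤ K ∧
    (∀ z, ‖z‖ ≤ 1 → c ≤ ‖(SS x.2).eval z‖) ∧
    ∀ j, TT x.2 (pt (n + 1) j) = tt r x.1 (pt (n + 1) j)} with h𝒦
  have hclosed : IsClosed 𝒦 := by
    have e : 𝒦 = {x | x.1 ∈ Icc (0 : ℝ) 1} ∩ {x | ‖x.2‖ ≤ K} ∩
        (⋂ z : {z : ℂ // ‖z‖ ≤ 1}, {x | c ≤ ‖(SS x.2).eval z.1‖}) ∩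
        (⋂ j, {x | TT x.2 (pt (n + 1) j) = tt r x.1 (pt (n + 1) j)}) := by
      ext x
      simp only [h𝒦, mem_setOf_eq, mem_inter_iff, mem_iInter, Subtype.forall]
      tauto
    rw [e]
    refine ((IsClosed.inter ?_ ?_).inter ?_).inter ?_
    · exact isClosed_Icc.preimage continuous_fst
    · exact isClosed_le continuous_snd.norm continuous_const
    · apply isClosed_iInter
      intro z
      apply isClosed_le continuous_const
      have : Continuous (fun x : ℝ × (Fin (n + 1 + 1) → ℂ) => (SS x.2).eval z.1) :=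
        continuous_SS.comp (continuous_snd.prodMk continuous_const)
      exact this.norm
    · apply isClosed_iInter
      intro j
      apply isClosed_eq
      · exact (contDiff_TT _).continuous.comp continuous_snd
      · simp only [tt]
        fun_prop
  have hcomp : IsCompact 𝒦 := by
    apply Metric.isCompact_of_isClosed_isBounded hclosed
    apply Bornology.IsBounded.subset
      ((isCompact_Icc (a := (0 : ℝ)) (b := 1)).isBounded.prod (isBounded_closedBall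
        (x := (0 : Fin (n + 1 + 1) → ℂ)) (r := K)))
    rintro ⟨s, p⟩ ⟨h1, h2, -, -⟩
    exact ⟨h1, mem_closedBall_zero_iff.mpr h2⟩
  have himg : Prod.fst '' 𝒦 = Sg r ∩ Icc (0 : ℝ) 1 := by
    ext s
    constructor
    · rintro ⟨⟨s', p⟩, ⟨h1, h2, h3, h4⟩, rfl⟩
      refine ⟨⟨p, ?_, eq_of_samples h4⟩, h1⟩
      intro z hz h0
      have := h3 z hz
      rw [h0, norm_zero] at this
      linarith
    · rintro ⟨⟨p, hp, hZ⟩, hs⟩
      have hT : Pos p := by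
        intro ζ hζ
        rw [TT_of_eq hZ hζ]
        exact hτ.trans_le (hb s hs ζ hζ).1
      obtain ⟨p', hp', hW', h0'⟩ := normalize hp hT
      have hZ' : Zb p' p' = ZZ r s := by
        rw [← X_mul_Wb, hW', X_mul_Wb, hZ]
      obtain ⟨k1, k2⟩ := hap p' hp' h0' (fun ζ hζ => by
        rw [TT_of_eq hZ' hζ]
        exact hb s hs ζ hζ)
      exact ⟨(s, p'), ⟨hs, k1, k2, fun j => TT_of_eq hZ' (pt_norm j)⟩, rfl⟩
  rw [← himg]
  exact (hcomp.image continuous_fst).isClosed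

/-- **Heins' theorem** in polynomial form. -/
theorem heins (r : Fin (n + 1) → ℂ) (hr : ∀ ζ, ‖ζ‖ = 1 → (PP r).eval ζ ≠ 0) :
    ∃ p : Fin (n + 1 + 1) → ℂ, Good p ∧ Pos p ∧ Wb p p = PP r * SS r := by
  have h1 : Icc (0 : ℝ) 1 ⊆ Sg r := by
    apply (Sg_closed r hr).Icc_subset_of_forall_mem_nhdsWithin (Sg_zero r)
    intro s hs
    exact mem_nhdsWithin_of_mem_nhds (Sg_open r hr hs.1 ⟨hs.2.1, hs.2.2.le⟩)
  obtain ⟨p, hp, hZ⟩ := h1 (right_mem_Icc.mpr zero_le_one)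
  refine ⟨p, hp, ?_, ?_⟩
  · intro ζ hζ
    rw [TT_of_eq hZ hζ, tt]
    have := hr ζ hζ
    have h2 : 0 < ‖(PP r).eval ζ‖ ^ 2 := by positivity
    simpa using h2
  · rw [← X_mul_Wb, ZZ] at hZ
    simp at hZ
    exact hZ

end Pool.Agent.H824MB
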