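import Pool.Agent.Helper824_mb.Blk

/-!
The kernel of the linearised problem.
-/

namespace Pool.Agent.H824MB

open Topology Filter Set Complex Polynomial Metric

variable {m : ℕ}

lemma rel_FG {p q : Fin (m + 1) → ℂ} (h : Wb p q + Wb q p = 0) {z : ℂ}
    (hz : (SS p).eval z ≠ 0) :
    deriv (qu (PP q) (SS p)) z = BB p z * deriv (qu (SS q) (SS p)) z -
      deriv (BB p) z * qu (SS q) (SS p) z := by
  rw [qu_deriv _ _ hz, qu_deriv _ _ hz, BB_deriv p hz, BB, qu, qu]
  have h1 := congrArg (Polynomial.eval z) h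
  simp only [Wb, eval_add, eval_sub, eval_mul, eval_zero] at h1 ⊢
  field_simp
  linear_combination (SS p).eval z * h1

lemma s0_eq {p q : Fin (m + 1) → ℂ} {z : ℂ} (hz : (SS p).eval z ≠ 0) :
    ((starRingEnd ℂ (BB p z) * qu (PP q) (SS p) z).re - (qu (SS q) (SS p) z).re) * (1 - ‖BB p z‖ ^ 2)⁻¹ =
      NN p q z / EE p z := by
  have hn : (0 : ℝ) < ‖(SS p).eval z‖ ^ 2 := by positivity
  have key : ∀ a b s : ℂ, s ≠ 0 → (starRingEnd ℂ (a / s) * (b / s)).re = (starRingEnd ℂ a * b).re / ‖s‖ ^ 2 := by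
    intro a b s hs
    have : starRingEnd ℂ (a / s) * (b / s) = (starRingEnd ℂ a * b) / ((‖s‖ ^ 2 : ℝ) : ℂ) := by
      rw [map_div₀, div_mul_div_comm]
      congr 1
      rw [mul_comm, Complex.mul_conj, Complex.normSq_eq_norm_sq]
    rw [this, Complex.div_ofReal_re]
  have key2 : ∀ b s : ℂ, s ≠ 0 → (b / s).re = (starRingEnd ℂ s * b).re / ‖s‖ ^ 2 := by
    intro b s hs
    have h1 := key s b s hs
    rw [div_self hs] at h1
    simpa using h1
  rw [one_sub_BB hz, BB, qu, qu, key _ _ _ hz]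
  rw [qu, key2 _ _ hz, NN]
  field_simp

lemma compact_of_near {s : ℂ → ℝ} (hs : ContinuousOn s (ball 0 1)) {r δ : ℝ} (hr : r < 1)
    (h : ∀ z, r ≤ ‖z‖ → ‖z‖ < 1 → s z < δ) : IsCompact {z | z ∈ ball (0 : ℂ) 1 ∧ δ ≤ s z} := by
  have e : {z | z ∈ ball (0 : ℂ) 1 ∧ δ ≤ s z} = closedBall 0 r ∩ s ⁻¹' Ici δ := by
    ext z
    constructor
    · rintro ⟨h1, h2⟩
      refine ⟨?_, h2⟩
      rw [mem_closedBall_zero_iff]
      by_contra hlt
      push Not at hlt
      exact absurd (h z hlt.le (mem_ball_zero_iff.mp h1)) (not_lt.mpr h2)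
    · rintro ⟨h1, h2⟩
      exact ⟨mem_ball_zero_iff.mpr ((mem_closedBall_zero_iff.mp h1).trans_lt hr), h2⟩
  rw [e]
  have hsub : closedBall (0 : ℂ) r ⊆ ball 0 1 := closedBall_subset_ball hr
  exact (isCompact_closedBall (0 : ℂ) r).of_isClosed_subset
    ((hs.mono hsub).preimage_isClosed_of_isClosed isClosed_closedBall isClosed_Ici)
    inter_subset_left

lemma SS_lower {p : Fin (m + 1) → ℂ} (hp : Good p) :
    ∃ σ > 0, ∀ z, ‖z‖ ≤ 1 → σ ≤ ‖(SS p).eval z‖ ^ 2 := by
  obtain ⟨z0, hz0, hmin⟩ := (isCompact_closedBall (0 : ℂ) 1).exists_isMinOn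
    ⟨0, by simp⟩ (f := fun z => ‖(SS p).eval z‖ ^ 2) (by
      apply Continuous.continuousOn
      exact ((SS p).continuous.norm).pow 2)
  refine ⟨‖(SS p).eval z0‖ ^ 2, ?_, fun z hz => hmin (mem_closedBall_zero_iff.mpr hz)⟩
  have := hp z0 (mem_closedBall_zero_iff.mp hz0)
  positivity

lemma NN_le_zero {p q : Fin (m + 1) → ℂ} (hp : Good p) (hT : Pos p)
    (h : Wb p q + Wb q p = 0) {z : ℂ} (hz : ‖z‖ < 1) : NN p q z ≤ 0 := by
  obtain ⟨C1, hC1, hN⟩ := NN_bound p q
  obtain ⟨C2, hC2, hE⟩ := EE_bound p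
  obtain ⟨r, hr, hr0, c, hc, hEl⟩ := EE_lower hT
  obtain ⟨σ, hσ, hS⟩ := SS_lower hp
  set s0 : ℂ → ℝ := fun w => ((starRingEnd ℂ (BB p w) * qu (PP q) (SS p) w).re - (qu (SS q) (SS p) w).re) *
    (1 - ‖BB p w‖ ^ 2)⁻¹ with hs0
  set V : ℂ → ℝ := fun w => 2 * (1 - ‖BB p w‖ ^ 2)⁻¹ - 1 with hV
  have hpos : ∀ w, ‖w‖ < 1 → 0 < 1 - ‖BB p w‖ ^ 2 := by
    intro w hw
    have := BB_lt hp hT hw
    have := norm_nonneg (BB p w)
    nlinarith
  have hcB : ∀ w, ‖w‖ < 1 → ContinuousAt (BB p) w := fun w hw =>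
    (qu_analyticAt _ _ (hp w hw.le)).continuousAt
  have hcinv : ∀ w, ‖w‖ < 1 → ContinuousAt (fun w => (1 - ‖BB p w‖ ^ 2)⁻¹) w := fun w hw =>
    (continuousAt_const.sub ((hcB w hw).norm.pow 2)).inv₀ (hpos w hw).ne'
  have hcs0 : ContinuousOn s0 (ball 0 1) := by
    intro w hw
    have hw' := mem_ball_zero_iff.mp hw
    apply ContinuousAt.continuousWithinAt
    have h1 : ContinuousAt (qu (PP q) (SS p)) w := (qu_analyticAt _ _ (hp w hw'.le)).continuousAt
    have h2 : ContinuousAt (qu (SS q) (SS p)) w := (qu_analyticAt _ _ (hp w hw'.le)).continuousAt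
    have h3 : ContinuousAt (fun w => starRingEnd ℂ (BB p w)) w := Complex.continuous_conj.continuousAt.comp (hcB w hw')
    exact ((Complex.continuous_re.continuousAt.comp (h3.mul h1)).sub
      (Complex.continuous_re.continuousAt.comp h2)).mul (hcinv w hw')
  have hcV : ContinuousOn V (ball 0 1) := by
    intro w hw
    have hw' := mem_ball_zero_iff.mp hw
    apply ContinuousAt.continuousWithinAt
    exact ((continuousAt_const.mul (hcinv w hw')).sub continuousAt_const)
  have main : ∀ η > 0, ∀ w, ‖w‖ < 1 → s0 w - η * V w ≤ 0 := by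
    intro η hη w hw
    refine maxp (Ω := ball 0 1) isOpen_ball (R := 1) (fun z hz => (mem_ball_zero_iff.mp hz).le)
      (fun w => s0 w - η * V w) ?_ (hcs0.sub (continuousOn_const.mul hcV)) ?_ w
      (mem_ball_zero_iff.mpr hw)
    · intro v hv hpv
      have hv' := mem_ball_zero_iff.mp hv
      have hSv := hp v hv'.le
      have l1 := Lap.lin (qu_analyticAt (PP p) (SS p) hSv) (qu_analyticAt (PP q) (SS p) hSv)
        (qu_analyticAt (SS q) (SS p) hSv) (BB_lt hp hT hv') (rel_FG h hSv)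
      have l2 := (Lap.V (qu_analyticAt (PP p) (SS p) hSv) (BB_lt hp hT hv')).const_mul η
      obtain ⟨a1, a2, b1, b2, k1, k2, k3⟩ := l1.sub l2
      refine ⟨a1, a2, b1, b2, k1, k2, ?_⟩
      rw [k3]
      have : 0 ≤ 8 * (‖deriv (BB p) v‖ / (1 - ‖BB p v‖ ^ 2)) ^ 2 * (s0 v - η * V v) := by
        positivity
      refine this.trans_eq ?_
      simp only [hs0, hV]
      show _ = _ * (‖deriv (BB p) v‖ / (1 - ‖BB p v‖ ^ 2)) ^ 2 * (((starRingEnd ℂ (BB p v) * _).re - _) *
        (1 - ‖BB p v‖ ^ 2)⁻¹) - η * (8 * (‖deriv (BB p) v‖ / (1 - ‖BB p v‖ ^ 2)) ^ 2 *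
          (2 * (1 - ‖BB p v‖ ^ 2)⁻¹ - 1))
      ring
    · intro δ hδ
      set K := C1 / c + η with hK
      have hKpos : 0 < K := by positivity
      set t := 2 * η * σ / ((C2 + 1) * K) with ht
      have htpos : 0 < t := by positivity
      apply compact_of_near (hcs0.sub (continuousOn_const.mul hcV)) (r := max r (1 - t))
        (max_lt hr (by linarith))
      intro v hv hv1
      have hvr : r ≤ ‖v‖ := (le_max_left _ _).trans hv
      have hvt : 1 - t ≤ ‖v‖ := (le_max_right _ _).trans hv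
      have hv0 : v ≠ 0 := by
        rintro rfl
        rw [norm_zero] at hvr
        linarith
      have hd : 0 < 1 - ‖v‖ := by linarith
      have hSv := hp v hv1.le
      have hEpos := EE_pos hp hT hv1
      have e1 : s0 v ≤ C1 / c := by
        rw [hs0]
        show _ * (1 - ‖BB p v‖ ^ 2)⁻¹ ≤ _
        rw [s0_eq hSv, div_le_div_iff₀ hEpos hc]
        have h1 := (le_abs_self _).trans (hN v hv0 hv1.le)
        have h2 := hEl v hvr hv1.le
        nlinarith
      have e2 : K / η ≤ V v + 1 := by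
        rw [hV]
        show K / η ≤ 2 * (1 - ‖BB p v‖ ^ 2)⁻¹ - 1 + 1
        rw [one_sub_BB hSv, inv_div, sub_add_cancel]
        have h1 := hS v hv1.le
        have h2 := hE v hv0 hv1.le
        have h3 : σ / ((C2 + 1) * (1 - ‖v‖)) ≤ ‖(SS p).eval v‖ ^ 2 / EE p v := by
          rw [div_le_div_iff₀ (by positivity) hEpos]
          nlinarith
        have h4 : K / η ≤ 2 * (σ / ((C2 + 1) * (1 - ‖v‖))) := by
          have h5 : 1 - ‖v‖ ≤ t := by linarith
          rw [ht, le_div_iff₀ (by positivity)] at h5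
          rw [← mul_div_assoc, div_le_div_iff₀ hη (by positivity)]
          linarith
        linarith
      have e3 : K ≤ η * (V v + 1) := by
        rw [div_le_iff₀ hη] at e2
        linarith
      have : s0 v - η * V v ≤ 0 := by
        rw [hK] at e3
        linarith
      show s0 v - η * V v < δ
      linarith
  have h0 : s0 z ≤ 0 := by
    by_contra hlt
    push Not at hlt
    have hVpos : 0 < V z + 1 := by
      have := hpos z hz
      rw [hV]
      show 0 < 2 * (1 - ‖BB p z‖ ^ 2)⁻¹ - 1 + 1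
      rw [sub_add_cancel]
      positivity
    have hη : 0 < s0 z / (2 * (V z + 1)) := by positivity
    have h1 := main _ hη z hz
    have h2 : s0 z / (2 * (V z + 1)) * (V z + 1) = s0 z / 2 := by
      field_simp
    nlinarith
  have h1 : NN p q z / EE p z ≤ 0 := by
    rw [← s0_eq (hp z hz.le)]
    exact h0
  have hEpos := EE_pos hp hT hz
  rw [div_le_iff₀ hEpos, zero_mul] at h1
  exact h1

lemma SS_neg (q : Fin (m + 1) → ℂ) : SS (-q) = - SS q := by
  simp [SS, Finset.sum_neg_distrib]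

lemma PP_neg (q : Fin (m + 1) → ℂ) : PP (-q) = - PP q := by
  simp [PP, Finset.sum_neg_distrib]

lemma NN_eq_zero {p q : Fin (m + 1) → ℂ} (hp : Good p) (hT : Pos p)
    (h : Wb p q + Wb q p = 0) {z : ℂ} (hz : ‖z‖ < 1) : NN p q z = 0 := by
  apply le_antisymm (NN_le_zero hp hT h hz)
  have h' : Wb p (-q) + Wb (-q) p = 0 := by
    have : Wb p (-q) + Wb (-q) p = -(Wb p q + Wb q p) := by
      simp only [Wb, SS_neg, PP_neg, derivative_neg]
      ring
    rw [this, h, neg_zero]
  have h1 := NN_le_zero hp hT h' hz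
  have h2 : NN p (-q) z = - NN p q z := by
    simp only [NN, SS_neg, PP_neg, eval_neg]
    simp
    ring
  rw [h2] at h1
  linarith

lemma orth {p q : Fin (m + 1) → ℂ} (hp : Good p) (hT : Pos p)
    (h : Wb p q + Wb q p = 0) {z : ℂ} (hz : ‖z‖ < 1) :
    (starRingEnd ℂ (deriv (BB p) z) * deriv (qu (PP q) (SS p)) z).re = 0 := by
  have hSz := hp z hz.le
  have hB : AnalyticAt ℂ (BB p) z := qu_analyticAt (PP p) (SS p) hSz
  have hF : AnalyticAt ℂ (qu (PP q) (SS p)) z := qu_analyticAt (PP q) (SS p) hSz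
  have hG : AnalyticAt ℂ (qu (SS q) (SS p)) z := qu_analyticAt (SS q) (SS p) hSz
  have hzero : ∀ᶠ w in 𝓝 z, (starRingEnd ℂ (BB p w) * qu (PP q) (SS p) w).re -
      (qu (SS q) (SS p) w).re = 0 := by
    filter_upwards [isOpen_ball.mem_nhds (mem_ball_zero_iff.mpr hz)] with w hw
    have hw' := mem_ball_zero_iff.mp hw
    have h1 := s0_eq (q := q) (hp w hw'.le)
    rw [NN_eq_zero hp hT h hw', zero_div] at h1
    rcases mul_eq_zero.mp h1 with h2 | h2
    · exact h2
    · exfalso
      have := BB_lt hp hT hw'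
      have h3 := norm_nonneg (BB p w)
      rw [inv_eq_zero] at h2
      nlinarith
  have key : ∀ v : ℂ, D2 (fun t : ℝ => (starRingEnd ℂ (BB p (z + t * v)) * qu (PP q) (SS p) (z + t * v)).re -
      (qu (SS q) (SS p) (z + t * v)).re) _ _ := fun v =>
    (((D2.hol hB v).conj.mul (D2.hol hF v)).re.sub (D2.hol hG v).re)
  have key2 : ∀ v : ℂ, D2 (fun t : ℝ => (starRingEnd ℂ (BB p (z + t * v)) * qu (PP q) (SS p) (z + t * v)).re -
      (qu (SS q) (SS p) (z + t * v)).re) 0 0 := fun v =>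
    (D2.const (0 : ℝ)).congr ((tendsto_line z v).eventually hzero)
  have e1 := ((key 1).unique (key2 1)).2
  have e2 := ((key I).unique (key2 I)).2
  simp at e1 e2 ⊢
  linarith

/-- **Kernel theorem.** -/
theorem kernel {p q : Fin (m + 1) → ℂ} (hp : Good p) (hT : Pos p)
    (h : Wb p q + Wb q p = 0) :
    ∃ (β : ℝ) (α : ℂ), PP q = C (β * I) * PP p + C α * SS p := by
  -- a point where the Wronskian does not vanish
  have hW := Wb_ne hT
  obtain ⟨z1, hz1, hWz1⟩ : ∃ z1 ∈ ball (0 : ℂ) 1, (Wb p p).eval z1 ≠ 0 := by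
    by_contra hcon
    push Not at hcon
    exact hW (poly_zero_of_ball one_pos hcon)
  obtain ⟨r, hr, hball⟩ : ∃ r > 0, ball z1 r ⊆ ball (0 : ℂ) 1 ∩ {z | (Wb p p).eval z ≠ 0} := by
    have ho : IsOpen (ball (0 : ℂ) 1 ∩ {z | (Wb p p).eval z ≠ 0}) :=
      isOpen_ball.inter (isOpen_ne.preimage (Wb p p).continuous)
    exact Metric.isOpen_iff.mp ho z1 ⟨hz1, hWz1⟩
  set A : ℂ[X] := derivative (PP q) * SS p - PP q * derivative (SS p) with hA
  set W : ℂ[X] := Wb p p with hWdef
  -- the quotient has zero real part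
  have hre : ∀ z ∈ ball z1 r, (qu A W z).re = 0 := by
    intro z hz
    have hz' := hball hz
    have hzn := mem_ball_zero_iff.mp hz'.1
    have hS := hp z hzn.le
    have h1 := orth hp hT h hzn
    rw [BB_deriv p hS, qu_deriv _ _ hS] at h1
    have hWz : W.eval z ≠ 0 := hz'.2
    rw [qu]
    have hns : (0 : ℝ) < ‖(SS p).eval z ^ 2‖ ^ 2 :=
      pow_pos (norm_pos_iff.mpr (pow_ne_zero 2 hS)) 2
    have hnw : (0 : ℝ) < ‖W.eval z‖ ^ 2 := by positivity
    have e1 : starRingEnd ℂ (W.eval z / (SS p).eval z ^ 2) * (A.eval z / (SS p).eval z ^ 2) =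
        (starRingEnd ℂ (W.eval z) * A.eval z) / ((‖(SS p).eval z ^ 2‖ ^ 2 : ℝ) : ℂ) := by
      rw [map_div₀, div_mul_div_comm]
      congr 1
      rw [mul_comm, Complex.mul_conj, Complex.normSq_eq_norm_sq]
    have e2 : A.eval z / W.eval z = (starRingEnd ℂ (W.eval z) * A.eval z) / ((‖W.eval z‖ ^ 2 : ℝ) : ℂ) := by
      have hc : starRingEnd ℂ (W.eval z) ≠ 0 := (_root_.map_ne_zero _).mpr hWz
      have : ((‖W.eval z‖ ^ 2 : ℝ) : ℂ) = starRingEnd ℂ (W.eval z) * W.eval z := by
        rw [mul_comm, Complex.mul_conj, Complex.normSq_eq_norm_sq]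
      rw [this]
      field_simp
    rw [e1, Complex.div_ofReal_re] at h1
    rw [e2, Complex.div_ofReal_re]
    rcases div_eq_zero_iff.mp h1 with h2 | h2
    · rw [h2, zero_div]
    · exact absurd h2 hns.ne'
  -- hence it is constant
  have hconst : ∀ z ∈ ball z1 r, qu A W z = qu A W z1 := by
    have hd : ∀ z ∈ ball z1 r, deriv (qu A W) z = 0 := by
      intro z hz
      have hWz : W.eval z ≠ 0 := (hball hz).2
      have han := qu_analyticAt A W hWz
      have hev : ∀ᶠ w in 𝓝 z, (qu A W w).re = 0 := by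
        filter_upwards [isOpen_ball.mem_nhds hz] with w hw
        exact hre w hw
      have k1 : ∀ v : ℂ, (deriv (qu A W) z * v).re = 0 := by
        intro v
        have := ((D2.hol han v).re.unique ((D2.const (0 : ℝ)).congr
          ((tendsto_line z v).eventually hev))).1
        exact this
      have k2 := k1 1
      have k3 := k1 I
      simp at k2 k3
      exact Complex.ext k2 (by simpa using k3)
    intro z hz
    have hz1r : z1 ∈ ball z1 r := mem_ball_self hr
    exact (convex_ball z1 r).is_const_of_fderivWithin_eq_zero (𝕜 := ℂ) (f := qu A W)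
      (fun w hw => (qu_analyticAt A W (hball hw).2).differentiableAt.differentiableWithinAt)
      (fun w hw => by
        rw [fderivWithin_of_isOpen isOpen_ball hw]
        ext
        simp [hd w hw]) hz hz1r
  set c := qu A W z1 with hc
  have hcre : c.re = 0 := hre z1 (mem_ball_self hr)
  have hAW : A = C c * W := by
    rw [← sub_eq_zero]
    apply poly_zero_of_ball hr (z0 := z1)
    intro z hz
    have h1 := hconst z hz
    rw [qu, div_eq_iff (hball hz).2] at h1
    rw [eval_sub, eval_mul, eval_C, h1, sub_self]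
  have hci : c = c.im * I := by
    apply Complex.ext <;> simp [hcre]
  -- integrate once more
  set Y : ℂ[X] := PP q - C c * PP p with hY
  have hYder : derivative Y * SS p - Y * derivative (SS p) = 0 := by
    rw [hY]
    simp only [derivative_sub, derivative_C_mul]
    rw [hA, hWdef, Wb] at hAW
    linear_combination hAW
  have hYconst : ∀ z ∈ ball (0 : ℂ) 1, qu Y (SS p) z = qu Y (SS p) 0 := by
    intro z hz
    have h0 : (0 : ℂ) ∈ ball (0 : ℂ) 1 := by simp
    exact (convex_ball (0 : ℂ) 1).is_const_of_fderivWithin_eq_zero (𝕜 := ℂ) (f := qu Y (SS p))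
      (fun w hw => (qu_analyticAt Y (SS p)
        (hp w (mem_ball_zero_iff.mp hw).le)).differentiableAt.differentiableWithinAt)
      (fun w hw => by
        rw [fderivWithin_of_isOpen isOpen_ball hw]
        ext
        simp [qu_deriv Y (SS p) (hp w (mem_ball_zero_iff.mp hw).le), hYder]) hz h0
  set α := qu Y (SS p) 0 with hα
  refine ⟨c.im, α, ?_⟩
  have hYS : Y = C α * SS p := by
    rw [← sub_eq_zero]
    apply poly_zero_of_ball one_pos (z0 := 0)
    intro z hz
    have h1 := hYconst z hz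
    rw [qu, div_eq_iff (hp z (mem_ball_zero_iff.mp hz).le)] at h1
    rw [eval_sub, eval_mul, eval_C, h1, sub_self]
  rw [← hci, ← hYS, hY]
  ring

end Pool.Agent.H824MB
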