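import Pool.Agent.Helper824_mb.Cmp
import Pool.Agent.Helper824_mb.Fac
import Pool.Agent.Helper114.MontelSol

/-!
The key comparison theorem.
-/

namespace Pool.Agent.H824MB

open Topology Filter Set Complex Polynomial Metric

variable {m : ℕ}

lemma one_sub_pos' {g : ℂ → ℂ} (hm : MapsTo g (ball 0 1) (ball 0 1)) {z : ℂ} (hz : ‖z‖ < 1) :
    0 < 1 - ‖g z‖ ^ 2 := one_sub_pos hm hz

lemma PP_of_poly (R : ℂ[X]) : PP (fun k : Fin (R.natDegree + 1) => R.coeff k) = R := by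
  rw [PP]
  conv_rhs => rw [R.as_sum_range_C_mul_X_pow]
  rw [Finset.sum_range]

lemma SS_ne {R : ℂ[X]} (hR : R.Monic) (hroots : ∀ z, R.eval z = 0 → ‖z‖ < 1) {z : ℂ}
    (hz : ‖z‖ ≤ 1) : (SS (fun k : Fin (R.natDegree + 1) => R.coeff k)).eval z ≠ 0 := by
  set n := R.natDegree with hn
  set r : Fin (n + 1) → ℂ := fun k => R.coeff k with hr
  by_cases hz0 : z = 0
  · rw [hz0, eval_SS, Finset.sum_eq_single (Fin.last n)]
    · simp only [Fin.val_last, Nat.sub_self, pow_zero, mul_one, hr]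
      rw [hn, hR.coeff_natDegree]
      simp
    · intro b _ hb
      have hb' : (b : ℕ) < n := lt_of_le_of_ne (Nat.lt_succ_iff.mp b.2) fun h => hb (Fin.ext h)
      rw [zero_pow (by omega), mul_zero]
    · intro h
      exact absurd (Finset.mem_univ _) h
  · have hcz : starRingEnd ℂ z ≠ 0 := (_root_.map_ne_zero _).mpr hz0
    have h1 : (SS r).eval z = z ^ n * starRingEnd ℂ ((PP r).eval (starRingEnd ℂ z)⁻¹) := by
      rw [eval_SS, eval_PP, map_sum, Finset.mul_sum]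
      apply Finset.sum_congr rfl
      intro k _
      have hk : (k : ℕ) ≤ n := Nat.lt_succ_iff.mp k.2
      rw [map_mul, map_pow, map_inv₀, Complex.conj_conj]
      have h2 : z ^ (n - (k : ℕ)) * z ^ (k : ℕ) = z ^ n := by
        rw [← pow_add, Nat.sub_add_cancel hk]
      have h3 : z ^ (k : ℕ) * z⁻¹ ^ (k : ℕ) = 1 := by
        rw [← mul_pow, mul_inv_cancel₀ hz0, one_pow]
      rw [← h2]
      linear_combination -(starRingEnd ℂ (r k) * z ^ (n - (k : ℕ))) * h3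
    rw [h1, PP_of_poly R]
    apply mul_ne_zero (pow_ne_zero _ hz0)
    rw [_root_.map_ne_zero]
    intro h2
    have h3 := hroots _ h2
    rw [norm_inv, RCLike.norm_conj] at h3
    have h4 : 0 < ‖z‖ := norm_pos_iff.mpr hz0
    have h5 : 1 ≤ ‖z‖⁻¹ := (one_le_inv₀ h4).mpr hz
    linarith

/-- the approximating finite Blaschke products -/
lemma step {A Cc f h : ℂ → ℂ}
    (hA : DifferentiableOn ℂ A (ball 0 1)) (hAm : MapsTo A (ball 0 1) (ball 0 1))
    (hC : DifferentiableOn ℂ Cc (ball 0 1)) (hCm : MapsTo Cc (ball 0 1) (ball 0 1))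
    (hf : DifferentiableOn ℂ f (ball 0 1)) (hfm : MapsTo f (ball 0 1) (ball 0 1))
    (hh : DifferentiableOn ℂ h (ball 0 1))
    (hSP : ∀ z, ‖z‖ < 1 → ‖deriv A z‖ * (1 - ‖Cc z‖ ^ 2) ≤ ‖deriv Cc z‖ * (1 - ‖A z‖ ^ 2))
    (hrf : ∀ z, ‖z‖ < 1 → deriv f z = h z * deriv Cc z)
    (hne : ∃ z ∈ ball (0 : ℂ) 1, deriv A z ≠ 0)
    {M : ℕ} (hM : analyticOrderAt (deriv A) 0 = M) {ρ : ℝ} (hρ0 : 0 ≤ ρ) (hρ : ρ < 1) :
    ∃ B : ℂ → ℂ, DifferentiableOn ℂ B (ball 0 1) ∧ (∀ z ∈ ball (0 : ℂ) 1, ‖B z‖ ≤ 1) ∧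
      (∀ z ∈ closedBall (0 : ℂ) ρ, analyticOrderAt (deriv A) z ≤ analyticOrderAt (deriv B) z) ∧
      ‖h 0‖ * ‖iteratedDeriv (M + 1) A 0‖ * (1 - ‖Cc 0‖ ^ 2) ≤
        ‖iteratedDeriv (M + 1) B 0‖ * ((1 - ‖A 0‖ ^ 2) * (1 - ‖f 0‖ ^ 2)) := by
  have hAn : AnalyticOnNhd ℂ A (ball 0 1) := fun z hz => hA.analyticAt (isOpen_ball.mem_nhds hz)
  have hA'n : AnalyticOnNhd ℂ (deriv A) (ball 0 1) := fun z hz => (hAn z hz).deriv
  obtain ⟨R, hRm, hRroots, hRle, hRge, hRtop⟩ := exists_poly hA'n hne hρ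
  set r : Fin (R.natDegree + 1) → ℂ := fun k => R.coeff k with hr
  have hPr : PP r = R := PP_of_poly R
  have hSr : ∀ z, ‖z‖ ≤ 1 → (SS r).eval z ≠ 0 := fun z hz => SS_ne hRm hRroots hz
  obtain ⟨p₀, hp₀, hT₀, hW₀⟩ := heins r (by
    intro ζ hζ h0
    rw [hPr] at h0
    have := hRroots ζ h0
    linarith)
  obtain ⟨p, hp, hWp, hp0⟩ := normalize hp₀ hT₀
  have hT : Pos p := by
    intro ζ hζ
    rw [TT_congr hWp hζ]
    exact hT₀ ζ hζ
  have hW : Wb p p = R * SS r := by rw [hWp, hW₀, hPr]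
  obtain ⟨h₁, hh₁, hA'⟩ := exists_quot (φ := deriv A) (ψ := fun w => R.eval w) hA'n
    (fun z _ => R.differentiable.analyticAt z) (fun z _ => hRtop z) hRle
  set q : ℂ → ℂ := fun z => h₁ z * (SS p).eval z ^ 2 / (SS r).eval z with hq
  have hqd : DifferentiableOn ℂ q (ball 0 1) := by
    intro z hz
    have hz' := (mem_ball_zero_iff.mp hz).le
    exact ((hh₁ z hz).mul (((SS p).differentiable z).pow 2).differentiableWithinAt).div
      ((SS r).differentiable z).differentiableWithinAt (hSr z hz')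
  have hBd : ∀ z, ‖z‖ ≤ 1 → deriv (BB p) z = R.eval z * ((SS r).eval z / (SS p).eval z ^ 2) := by
    intro z hz
    rw [BB_deriv p (hp z hz), hW, eval_mul]
    ring
  have hrA : ∀ z, ‖z‖ < 1 → deriv A z = q z * deriv (BB p) z := by
    intro z hz
    have h1 := hA' z (mem_ball_zero_iff.mpr hz)
    have h2 := hp z hz.le
    have h3 := hSr z hz.le
    rw [h1, hBd z hz.le, hq]
    field_simp
  -- first comparison
  have hcmp1 : ∀ z, ‖z‖ < 1 → rho p A Cc Cc (fun _ => 1) q z ≤ 1 := by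
    apply cmp hp hT hA hAm hC hCm hC hCm (differentiableOn_const _) hqd hSP (fun z _ => by simp) hrA
    intro z hz _
    have := one_sub_pos hCm hz
    rw [norm_one, one_mul, div_self this.ne']
  have hrho : ∀ z, ‖z‖ < 1 → rho p A Cc f h q z =
      (‖h z‖ * (1 - ‖Cc z‖ ^ 2) / (1 - ‖f z‖ ^ 2)) * rho p A Cc Cc (fun _ => 1) q z := by
    intro z hz
    have h1 := one_sub_pos hCm hz
    have h2 := one_sub_pos hAm hz
    have h3 := one_sub_pos hfm hz
    rw [rho, rho, one_mul, norm_mul]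
    field_simp
  have hrho0 : ∀ z, ‖z‖ < 1 → 0 ≤ rho p A Cc Cc (fun _ => 1) q z := by
    intro z hz
    have h1 := one_sub_pos hCm hz
    have h2 := one_sub_pos hAm hz
    have h4 : 0 < 1 - ‖BB p z‖ ^ 2 := by nlinarith [norm_nonneg (BB p z), BB_lt hp hT hz]
    rw [rho]
    positivity
  -- second comparison
  have hcmp2 : ∀ z, ‖z‖ < 1 → rho p A Cc f h q z ≤ 1 := by
    apply cmp hp hT hA hAm hC hCm hf hfm hh hqd hSP hrf hrA
    intro z hz hlt
    rw [hrho z hz] at hlt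
    by_contra hm
    push Not at hm
    have h1 := hcmp1 z hz
    have h2 := hrho0 z hz
    nlinarith
  have h00 : ‖(0 : ℂ)‖ < 1 := by simp
  have hB0 : BB p 0 = 0 := by
    have : (PP p).eval 0 = p 0 := by
      rw [eval_PP, Finset.sum_eq_single 0]
      · simp
      · intro k _ hk
        have : (k : ℕ) ≠ 0 := fun h => hk (Fin.ext h)
        rw [zero_pow this, mul_zero]
      · intro h
        exact absurd (Finset.mem_univ _) h
    rw [BB, qu, this, hp0, zero_div]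
  have hfin := hcmp2 0 h00
  have hpA := one_sub_pos hAm h00
  have hpC := one_sub_pos hCm h00
  have hpf := one_sub_pos hfm h00
  rw [rho, hB0, div_le_one (mul_pos hpA hpf), norm_mul] at hfin
  simp only [norm_zero, ne_eq, OfNat.ofNat_ne_zero, not_false_eq_true, zero_pow, sub_zero,
    mul_one] at hfin
  -- derivatives at zero
  have hBan : ∀ z, ‖z‖ < 1 → AnalyticAt ℂ (BB p) z := fun z hz =>
    qu_analyticAt (PP p) (SS p) (hp z hz.le)
  have hordB : ∀ z ∈ closedBall (0 : ℂ) ρ, analyticOrderAt (deriv A) z ≤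
      analyticOrderAt (deriv (BB p)) z := by
    intro z hz
    have hz1 : ‖z‖ < 1 := (mem_closedBall_zero_iff.mp hz).trans_lt hρ
    refine (hRge z hz).trans ?_
    have hSa : AnalyticAt ℂ (fun w => (SS r).eval w / (SS p).eval w ^ 2) z :=
      ((SS r).differentiable.analyticAt z).div (((SS p).differentiable.analyticAt z).pow 2)
        (pow_ne_zero 2 (hp z hz1.le))
    have hRa : AnalyticAt ℂ (fun w => R.eval w) z := R.differentiable.analyticAt z
    have he : deriv (BB p) =ᶠ[𝓝 z] (fun w => R.eval w) * fun w => (SS r).eval w / (SS p).eval w ^ 2 := by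
      filter_upwards [isOpen_ball.mem_nhds (mem_ball_zero_iff.mpr hz1)] with w hw
      exact hBd w (mem_ball_zero_iff.mp hw).le
    rw [analyticOrderAt_congr he, analyticOrderAt_mul hRa hSa]
    exact le_self_add
  have hlead : iteratedDeriv (M + 1) A 0 = q 0 * iteratedDeriv (M + 1) (BB p) 0 := by
    have h1 : (M : ℕ∞) ≤ analyticOrderAt (deriv (BB p)) 0 := by
      rw [← hM]
      exact hordB 0 (by simpa using hρ0)
    obtain ⟨b, hb, hbe⟩ := (natCast_le_analyticOrderAt (hBan 0 h00).deriv).mp h1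
    simp only [sub_zero, smul_eq_mul] at hbe
    have hqa : AnalyticAt ℂ q 0 := hqd.analyticAt (isOpen_ball.mem_nhds (by simp))
    have h2 : ∀ᶠ z in 𝓝 0, deriv A z = z ^ M * (q * b) z := by
      filter_upwards [hbe, isOpen_ball.mem_nhds (show (0 : ℂ) ∈ ball (0 : ℂ) 1 by simp)] with z h3 h4
      rw [hrA z (mem_ball_zero_iff.mp h4), h3]
      simp only [Pi.mul_apply]
      ring
    rw [lead M (hqa.mul hb) h2, lead M hb hbe]
    simp only [Pi.mul_apply]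
    ring
  refine ⟨BB p, fun z hz => (hBan z (mem_ball_zero_iff.mp hz)).differentiableAt.differentiableWithinAt,
    fun z hz => BB_le hp (mem_ball_zero_iff.mp hz).le, hordB, ?_⟩
  rw [hlead, norm_mul]
  calc ‖h 0‖ * (‖q 0‖ * ‖iteratedDeriv (M + 1) (BB p) 0‖) * (1 - ‖Cc 0‖ ^ 2)
      = ‖iteratedDeriv (M + 1) (BB p) 0‖ * (‖h 0‖ * ‖q 0‖ * (1 - ‖Cc 0‖ ^ 2)) := by ring
    _ ≤ _ := by gcongr

/-- **Key theorem.** -/
theorem key {A Cc f h : ℂ → ℂ}
    (hA : DifferentiableOn ℂ A (ball 0 1)) (hAm : MapsTo A (ball 0 1) (ball 0 1))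
    (hC : DifferentiableOn ℂ Cc (ball 0 1)) (hCm : MapsTo Cc (ball 0 1) (ball 0 1))
    (hf : DifferentiableOn ℂ f (ball 0 1)) (hfm : MapsTo f (ball 0 1) (ball 0 1))
    (hh : DifferentiableOn ℂ h (ball 0 1))
    (hSP : ∀ z, ‖z‖ < 1 → ‖deriv A z‖ * (1 - ‖Cc z‖ ^ 2) ≤ ‖deriv Cc z‖ * (1 - ‖A z‖ ^ 2))
    (hrf : ∀ z, ‖z‖ < 1 → deriv f z = h z * deriv Cc z)
    (hne : ∃ z ∈ ball (0 : ℂ) 1, deriv A z ≠ 0)
    {M : ℕ} (hM : analyticOrderAt (deriv A) 0 = M)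
    (hE : ∀ g : ℂ → ℂ, DifferentiableOn ℂ g (ball 0 1) → (∀ z ∈ ball (0 : ℂ) 1, ‖g z‖ ≤ 1) →
      (∀ z ∈ ball (0 : ℂ) 1, analyticOrderAt (deriv A) z ≤ analyticOrderAt (deriv g) z) →
      ‖iteratedDeriv (M + 1) g 0‖ * (1 - ‖A 0‖ ^ 2) ≤ ‖iteratedDeriv (M + 1) A 0‖) :
    ‖h 0‖ * (1 - ‖Cc 0‖ ^ 2) ≤ 1 - ‖f 0‖ ^ 2 := by
  have h00 : ‖(0 : ℂ)‖ < 1 := by simp
  have hpA := one_sub_pos hAm h00
  have hpC := one_sub_pos hCm h00
  have hpf := one_sub_pos hfm h00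
  have hAn : AnalyticOnNhd ℂ A (ball 0 1) := fun z hz => hA.analyticAt (isOpen_ball.mem_nhds hz)
  have hA'n : AnalyticOnNhd ℂ (deriv A) (ball 0 1) := fun z hz => (hAn z hz).deriv
  have hρ : ∀ n : ℕ, (0 : ℝ) ≤ 1 - 1 / (n + 1) ∧ (1 : ℝ) - 1 / (n + 1) < 1 := by
    intro n
    have h1 : (0 : ℝ) < n + 1 := by positivity
    have h2 : (1 : ℝ) / (n + 1) ≤ 1 := by
      rw [div_le_one h1]
      have : (0 : ℝ) ≤ n := by positivity
      linarith
    have h3 : (0 : ℝ) < 1 / (n + 1) := by positivity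
    constructor <;> linarith
  have hstep := fun n : ℕ => step hA hAm hC hCm hf hfm hh hSP hrf hne hM (hρ n).1 (hρ n).2
  choose B hB1 hB2 hB3 hB4 using hstep
  set 𝒰 : Ultrafilter ℕ := Filter.hyperfilter ℕ with h𝒰
  obtain ⟨g, hg, hlim⟩ := Pool.Agent.Helper114.Montel.montel isOpen_ball B hB1 1 hB2 𝒰
  have h𝒰top : (𝒰 : Filter ℕ) ≤ atTop := Nat.hyperfilter_le_atTop
  have hgle : ∀ z ∈ ball (0 : ℂ) 1, ‖g z‖ ≤ 1 := by
    intro z hz
    exact le_of_tendsto (hlim.tendsto_at hz).norm (Eventually.of_forall fun n => hB2 n z hz)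
  have hgan : ∀ z ∈ ball (0 : ℂ) 1, AnalyticAt ℂ g z := fun z hz =>
    hg.analyticAt (isOpen_ball.mem_nhds hz)
  have hgord : ∀ z ∈ ball (0 : ℂ) 1, analyticOrderAt (deriv A) z ≤ analyticOrderAt (deriv g) z := by
    intro z hz
    have htop := order_ne_top hA'n hne z hz
    rw [← Nat.cast_analyticOrderNatAt htop,
      natCast_le_analyticOrderAt_iff_iteratedDeriv_eq_zero (hgan z hz).deriv]
    intro i hi
    have h1 := (tendsto_iteratedDeriv isOpen_ball hB1 hlim (i + 1)).1.tendsto_at hz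
    have h2 : ∀ᶠ n in (𝒰 : Filter ℕ), iteratedDeriv (i + 1) (B n) z = 0 := by
      apply Eventually.filter_mono h𝒰top
      have h3 : ∀ᶠ n : ℕ in atTop, ‖z‖ ≤ 1 - 1 / ((n : ℝ) + 1) := by
        have h4 : Tendsto (fun n : ℕ => 1 - 1 / ((n : ℝ) + 1)) atTop (𝓝 (1 - 0)) :=
          tendsto_const_nhds.sub tendsto_one_div_add_atTop_nhds_zero_nat
        rw [sub_zero] at h4
        exact (h4.eventually (lt_mem_nhds (mem_ball_zero_iff.mp hz))).mono fun n hn => le_of_lt hn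
      filter_upwards [h3] with n hn
      have h5 := hB3 n z (mem_closedBall_zero_iff.mpr hn)
      rw [← Nat.cast_analyticOrderNatAt htop, natCast_le_analyticOrderAt_iff_iteratedDeriv_eq_zero
        (((hB1 n).analyticAt (isOpen_ball.mem_nhds hz)).deriv)] at h5
      rw [iteratedDeriv_succ']
      exact h5 i hi
    have h6 : Tendsto (fun n => iteratedDeriv (i + 1) (B n) z) 𝒰 (𝓝 0) :=
      tendsto_const_nhds.congr' (by
        filter_upwards [h2] with n hn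
        exact hn.symm)
    rw [← iteratedDeriv_succ']
    exact tendsto_nhds_unique h1 h6
  have hgE := hE g hg hgle hgord
  have hz0 : (0 : ℂ) ∈ ball (0 : ℂ) 1 := by simp
  have hlim0 := ((tendsto_iteratedDeriv isOpen_ball hB1 hlim (M + 1)).1.tendsto_at hz0).norm
  have hK : ‖h 0‖ * ‖iteratedDeriv (M + 1) A 0‖ * (1 - ‖Cc 0‖ ^ 2) ≤
      ‖iteratedDeriv (M + 1) g 0‖ * ((1 - ‖A 0‖ ^ 2) * (1 - ‖f 0‖ ^ 2)) :=
    ge_of_tendsto (hlim0.mul_const _) (Eventually.of_forall hB4)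
  have hApos : 0 < ‖iteratedDeriv (M + 1) A 0‖ := by
    rw [norm_pos_iff]
    obtain ⟨a, ha, ha0, hae⟩ := ((hA'n 0 hz0).analyticOrderAt_eq_natCast).mp hM
    simp only [sub_zero, smul_eq_mul] at hae
    rw [lead M ha hae]
    exact mul_ne_zero (by exact_mod_cast M.factorial_ne_zero) ha0
  have h1 : ‖h 0‖ * ‖iteratedDeriv (M + 1) A 0‖ * (1 - ‖Cc 0‖ ^ 2) ≤
      ‖iteratedDeriv (M + 1) A 0‖ * (1 - ‖f 0‖ ^ 2) := by
    calc _ ≤ ‖iteratedDeriv (M + 1) g 0‖ * ((1 - ‖A 0‖ ^ 2) * (1 - ‖f 0‖ ^ 2)) := hK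
      _ = (‖iteratedDeriv (M + 1) g 0‖ * (1 - ‖A 0‖ ^ 2)) * (1 - ‖f 0‖ ^ 2) := by ring
      _ ≤ _ := by gcongr
  have h2 : ‖iteratedDeriv (M + 1) A 0‖ * (‖h 0‖ * (1 - ‖Cc 0‖ ^ 2)) ≤
      ‖iteratedDeriv (M + 1) A 0‖ * (1 - ‖f 0‖ ^ 2) := by linarith
  exact le_of_mul_le_mul_left h2 hApos

end Pool.Agent.H824MB
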