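import Pool.Agent.Helper824_mb.Calc

/-!
Polynomials with their reversals.
-/

namespace Pool.Agent.H824MB

open Topology Filter Set Complex Polynomial

variable {m : ℕ}

/-- the polynomial with coefficients `p` -/
noncomputable def PP (p : Fin (m + 1) → ℂ) : ℂ[X] := ∑ k : Fin (m + 1), C (p k) * X ^ (k : ℕ)

/-- the reversed polynomial -/
noncomputable def SS (p : Fin (m + 1) → ℂ) : ℂ[X] := ∑ k : Fin (m + 1), C (starRingEnd ℂ (p k)) * X ^ (m - (k : ℕ))

/-- `z P'(z)` -/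
noncomputable def DP (p : Fin (m + 1) → ℂ) : ℂ[X] := ∑ k : Fin (m + 1), C ((k : ℕ) * p k) * X ^ (k : ℕ)

/-- `z S'(z)` -/
noncomputable def DS (p : Fin (m + 1) → ℂ) : ℂ[X] :=
  ∑ k : Fin (m + 1), C (((m : ℂ) - (k : ℕ)) * starRingEnd ℂ (p k)) * X ^ (m - (k : ℕ))

lemma X_mul_derivative_PP (p : Fin (m + 1) → ℂ) : X * derivative (PP p) = DP p := by
  rw [PP, DP, derivative_sum, Finset.mul_sum]
  apply Finset.sum_congr rfl
  intro k _
  rw [derivative_C_mul_X_pow]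
  rcases Nat.eq_zero_or_pos (k : ℕ) with h | h
  · simp [h]
  · have : (X : ℂ[X]) ^ (k : ℕ) = X * X ^ ((k : ℕ) - 1) := by
      rw [← pow_succ']
      congr 1
      omega
    rw [this, mul_comm (p k)]
    ring

lemma X_mul_derivative_SS (p : Fin (m + 1) → ℂ) : X * derivative (SS p) = DS p := by
  rw [SS, DS, derivative_sum, Finset.mul_sum]
  apply Finset.sum_congr rfl
  intro k _
  rw [derivative_C_mul_X_pow]
  have hk : (k : ℕ) ≤ m := Nat.lt_succ_iff.mp k.2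
  have hcast : ((m - (k : ℕ) : ℕ) : ℂ) = (m : ℂ) - (k : ℕ) := Nat.cast_sub hk
  rcases Nat.eq_zero_or_pos (m - (k : ℕ)) with h | h
  · have h0 : (m : ℂ) - (k : ℕ) = 0 := by rw [← hcast, h]; simp
    rw [hcast, h0]; simp
  · have : (X : ℂ[X]) ^ (m - (k : ℕ)) = X * X ^ (m - (k : ℕ) - 1) := by
      rw [← pow_succ']
      congr 1
      omega
    rw [this, hcast, mul_comm (starRingEnd ℂ (p k))]
    ring

lemma eval_PP (p : Fin (m + 1) → ℂ) (z : ℂ) : (PP p).eval z = ∑ k : Fin (m + 1), p k * z ^ (k : ℕ) := by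
  simp [PP, eval_finsetSum]

lemma eval_SS (p : Fin (m + 1) → ℂ) (z : ℂ) :
    (SS p).eval z = ∑ k : Fin (m + 1), starRingEnd ℂ (p k) * z ^ (m - (k : ℕ)) := by
  simp [SS, eval_finsetSum]

lemma eval_DP (p : Fin (m + 1) → ℂ) (z : ℂ) :
    (DP p).eval z = ∑ k : Fin (m + 1), ((k : ℕ) : ℂ) * p k * z ^ (k : ℕ) := by
  simp [DP, eval_finsetSum]

lemma eval_DS (p : Fin (m + 1) → ℂ) (z : ℂ) :
    (DS p).eval z = ∑ k : Fin (m + 1), ((m : ℂ) - (k : ℕ)) * starRingEnd ℂ (p k) * z ^ (m - (k : ℕ)) := by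
  simp [DS, eval_finsetSum]

lemma pow_circle {ζ : ℂ} (hζ : ‖ζ‖ = 1) {k : ℕ} (hk : k ≤ m) :
    ζ ^ (m - k) = ζ ^ m * starRingEnd ℂ (ζ ^ k) := by
  have h1 : ζ ^ k * starRingEnd ℂ (ζ ^ k) = 1 := by
    rw [Complex.mul_conj, Complex.normSq_eq_norm_sq, norm_pow, hζ]
    simp
  calc ζ ^ (m - k) = ζ ^ (m - k) * (ζ ^ k * starRingEnd ℂ (ζ ^ k)) := by rw [h1, mul_one]
    _ = (ζ ^ (m - k) * ζ ^ k) * starRingEnd ℂ (ζ ^ k) := by ring
    _ = ζ ^ m * starRingEnd ℂ (ζ ^ k) := by rw [← pow_add, Nat.sub_add_cancel hk]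

lemma SS_circle (p : Fin (m + 1) → ℂ) {ζ : ℂ} (hζ : ‖ζ‖ = 1) :
    (SS p).eval ζ = ζ ^ m * starRingEnd ℂ ((PP p).eval ζ) := by
  rw [eval_SS, eval_PP, map_sum, Finset.mul_sum]
  apply Finset.sum_congr rfl
  intro k _
  rw [pow_circle hζ (Nat.lt_succ_iff.mp k.2), map_mul]
  ring

lemma DS_circle (p : Fin (m + 1) → ℂ) {ζ : ℂ} (hζ : ‖ζ‖ = 1) :
    (DS p).eval ζ = ζ ^ m * starRingEnd ℂ (m * (PP p).eval ζ - (DP p).eval ζ) := by
  rw [eval_DS, eval_PP, eval_DP, Finset.mul_sum, ← Finset.sum_sub_distrib, map_sum, Finset.mul_sum]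
  apply Finset.sum_congr rfl
  intro k _
  rw [pow_circle hζ (Nat.lt_succ_iff.mp k.2)]
  simp only [map_sub, map_mul, map_natCast]
  ring

/-- the Wronskian form -/
noncomputable def Wb (p q : Fin (m + 1) → ℂ) : ℂ[X] :=
  derivative (PP p) * SS q - PP p * derivative (SS q)

noncomputable def Zb (p q : Fin (m + 1) → ℂ) : ℂ[X] := DP p * SS q - PP p * DS q

lemma X_mul_Wb (p q : Fin (m + 1) → ℂ) : X * Wb p q = Zb p q := by
  rw [Wb, Zb, ← X_mul_derivative_PP, ← X_mul_derivative_SS]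
  ring

/-- the trigonometric polynomial -/
noncomputable def Tb (p q : Fin (m + 1) → ℂ) (ζ : ℂ) : ℂ :=
  (DP p).eval ζ * starRingEnd ℂ ((PP q).eval ζ) + (PP p).eval ζ * starRingEnd ℂ ((DP q).eval ζ) -
    m * (PP p).eval ζ * starRingEnd ℂ ((PP q).eval ζ)

lemma Zb_circle (p q : Fin (m + 1) → ℂ) {ζ : ℂ} (hζ : ‖ζ‖ = 1) :
    (Zb p q).eval ζ = ζ ^ m * Tb p q ζ := by
  rw [Zb, eval_sub, eval_mul, eval_mul, SS_circle q hζ, DS_circle q hζ, Tb]
  simp only [map_sub, map_mul, map_natCast]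
  ring

lemma Tb_conj (p q : Fin (m + 1) → ℂ) (ζ : ℂ) : starRingEnd ℂ (Tb p q ζ) = Tb q p ζ := by
  simp only [Tb, map_sub, map_add, map_mul, map_natCast, Complex.conj_conj]
  ring

/-- real form -/
noncomputable def TT (p : Fin (m + 1) → ℂ) (ζ : ℂ) : ℝ := (Tb p p ζ).re

lemma Tb_self (p : Fin (m + 1) → ℂ) (ζ : ℂ) : Tb p p ζ = TT p ζ := by
  have := Tb_conj p p ζ
  rw [Complex.conj_eq_iff_real] at this
  obtain ⟨r, hr⟩ := this
  rw [TT, hr]; simp

lemma Zb_natDegree (hm : 1 ≤ m) (p q : Fin (m + 1) → ℂ) : (Zb p q).natDegree < 2 * m := by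
  have h1 : Zb p q = ∑ k : Fin (m + 1), ∑ l : Fin (m + 1),
      C (((k : ℕ) - ((m : ℂ) - (l : ℕ))) * (p k * starRingEnd ℂ (q l))) * X ^ ((k : ℕ) + (m - (l : ℕ))) := by
    rw [Zb, DP, SS, PP, DS, Finset.sum_mul_sum, Finset.sum_mul_sum, ← Finset.sum_sub_distrib]
    apply Finset.sum_congr rfl
    intro k _
    rw [← Finset.sum_sub_distrib]
    apply Finset.sum_congr rfl
    intro l _
    rw [pow_add]
    simp only [map_mul, map_sub]
    ring
  rw [h1]
  have h2 : ∀ k l : Fin (m + 1), (C (((k : ℕ) - ((m : ℂ) - (l : ℕ))) * (p k * starRingEnd ℂ (q l))) *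
      X ^ ((k : ℕ) + (m - (l : ℕ))) : ℂ[X]).natDegree ≤ 2 * m - 1 := by
    intro k l
    have hk : (k : ℕ) ≤ m := Nat.lt_succ_iff.mp k.2
    by_cases h : (k : ℕ) = m ∧ (l : ℕ) = 0
    · rw [h.1, h.2]
      simp
    · refine (natDegree_C_mul_X_pow_le _ _).trans ?_
      omega
  refine lt_of_le_of_lt (natDegree_sum_le_of_forall_le _ _ fun k _ =>
    natDegree_sum_le_of_forall_le _ _ fun l _ => h2 k l) (by omega)

lemma Zb_zero (p q : Fin (m + 1) → ℂ) : (Zb p q).eval 0 = 0 := by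
  rw [← X_mul_Wb]; simp

/-- the sample points on the circle -/
noncomputable def pt (m : ℕ) (j : Fin (2 * m - 1)) : ℂ := Complex.exp ((((j : ℕ) : ℝ) / (2 * m) : ℝ) * I)

lemma pt_norm (j : Fin (2 * m - 1)) : ‖pt m j‖ = 1 := Complex.norm_exp_ofReal_mul_I _

lemma pt_inj : Function.Injective (pt m) := by
  intro i j hij
  have hm : (0 : ℝ) < 2 * m := by
    have : 0 < 2 * m := by have := i.2; omega
    exact_mod_cast this
  have hb : ∀ i : Fin (2 * m - 1), ((i : ℕ) : ℝ) / (2 * m) ∈ Set.Ioc (-Real.pi) Real.pi := by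
    intro i
    have h1 : (0 : ℝ) ≤ ((i : ℕ) : ℝ) / (2 * m) := by positivity
    have h2 : ((i : ℕ) : ℝ) / (2 * m) ≤ 1 := by
      rw [div_le_one hm]
      have : (i : ℕ) ≤ 2 * m := by have := i.2; omega
      exact_mod_cast this
    have := Real.pi_gt_three
    constructor <;> linarith
  have h1 := congrArg Complex.arg hij
  rw [pt, pt, Complex.arg_exp_mul_I, Complex.arg_exp_mul_I] at h1
  rw [(toIocMod_eq_self Real.two_pi_pos).mpr (by
    have := hb i; rw [show -Real.pi + 2 * Real.pi = Real.pi by ring]; exact this),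
    (toIocMod_eq_self Real.two_pi_pos).mpr (by
    have := hb j; rw [show -Real.pi + 2 * Real.pi = Real.pi by ring]; exact this)] at h1
  have h2 : ((i : ℕ) : ℝ) = ((j : ℕ) : ℝ) := (div_left_inj' hm.ne').mp h1
  exact Fin.ext (by exact_mod_cast h2)

/-- a polynomial of degree `< 2m` vanishing at `0` and at the sample points is zero -/
lemma vanish (hm : 1 ≤ m) {Q : ℂ[X]} (hQ : Q.natDegree < 2 * m) (h0 : Q.eval 0 = 0)
    (h : ∀ j, Q.eval (pt m j) = 0) : Q = 0 := by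
  have hinj : Function.Injective (fun o : Option (Fin (2 * m - 1)) =>
      (o.elim 0 (pt m) : ℂ)) := by
    intro a b hab
    rcases a with _ | a <;> rcases b with _ | b
    · rfl
    · have : pt m b = 0 := hab.symm
      have h2 := pt_norm b
      rw [this, norm_zero] at h2
      norm_num at h2
    · have : pt m a = 0 := hab
      have h2 := pt_norm a
      rw [this, norm_zero] at h2
      norm_num at h2
    · rw [pt_inj (show pt m a = pt m b from hab)]
  apply Polynomial.eq_zero_of_natDegree_lt_card_of_eval_eq_zero Q hinj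
  · rintro (_ | j)
    · exact h0
    · exact h j
  · rw [Fintype.card_option, Fintype.card_fin]
    omega

end Pool.Agent.H824MB
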